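import Pool.Agent.H70.SG.Deco

set_option autoImplicit false

/-!
A circle of length `3 m` with a loop at every vertex, and its covering, in which the loops at the three vertices
`0`, `m`, `2 m` become the edges of the 3-regular tree.
-/

namespace Pool.Agent.H70.SG

open Filter Topology Pool.Agent.H751R3 Pool.Agent.H751R3.Dart

/-- The circle. -/
abbrev Z3 (m : ℕ) : Type := ZMod (3 * m)

/-- The colour of the vertices `0`, `m`, `2 m`. -/
def col (m : ℕ) (x : Z3 m) : Option (Fin 3) :=
  if x = 0 then some 0 else if x = (m : ZMod (3 * m)) then some 1 else if x = ((2 * m : ℕ) : ZMod (3 * m)) then some 2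
    else none

/-- The other end of the loop or tree edge at `(w, x)`. -/
def cr (m : ℕ) (x : Z3 m) (w : W) : W :=
  match col m x with
  | none => w
  | some c => act c w

theorem cr_cr (m : ℕ) (x : Z3 m) (w : W) : cr m x (cr m x w) = w := by
  unfold cr
  cases col m x with
  | none => rfl
  | some c => exact act_act c w

/-- The loops and tree edges. -/
def LE (m : ℕ) : Type := {e : Sym2 W × Z3 m // ∃ w, e.1 = s(w, cr m e.2 w)}

/-- The loop or tree edge at `(w, x)`. -/
def le (m : ℕ) (w : W) (x : Z3 m) : LE m := ⟨(s(w, cr m x w), x), w, rfl⟩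

theorem le_cr (m : ℕ) (w : W) (x : Z3 m) : le m (cr m x w) x = le m w x := by
  apply Subtype.ext
  change (s(cr m x w, cr m x (cr m x w)), x) = (s(w, cr m x w), x)
  rw [cr_cr, Sym2.eq_swap]

/-- The circle with loops. -/
def C2 (m : ℕ) : Gr (Z3 m) (Z3 m ⊕ Z3 m) where
  ends := Sum.elim (fun x => s(x, x + 1)) (fun x => s(x, x))

/-- Its covering. -/
def C1 (m : ℕ) : Gr (W × Z3 m) ((W × Z3 m) ⊕ LE m) where
  ends := Sum.elim (fun p => s(p, (p.1, p.2 + 1))) (fun e => e.1.1.map fun w => (w, e.1.2))

def DD2 (m : ℕ) : Da (Z3 m) (Option Bool) where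
  σ := fun i x => match i with
    | none => x
    | some true => x + 1
    | some false => x - 1
  rev := fun i => match i with
    | none => none
    | some b => some !b
  rev_rev := by
    rintro (_ | b)
    · rfl
    · simp
  inv := by
    rintro (_ | b) x
    · rfl
    · cases b
      · exact sub_add_cancel x 1
      · exact add_sub_cancel_right x 1

def DD1 (m : ℕ) : Da (W × Z3 m) (Option Bool) where
  σ := fun i p => match i with
    | none => (cr m p.2 p.1, p.2)
    | some true => (p.1, p.2 + 1)
    | some false => (p.1, p.2 - 1)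
  rev := fun i => match i with
    | none => none
    | some b => some !b
  rev_rev := by
    rintro (_ | b)
    · rfl
    · simp
  inv := by
    rintro (_ | b) ⟨w, x⟩
    · exact Prod.ext (cr_cr m x w) rfl
    · cases b
      · exact Prod.ext rfl (sub_add_cancel x 1)
      · exact Prod.ext rfl (add_sub_cancel_right x 1)

def ed2 (m : ℕ) (x : Z3 m) : Option Bool → Z3 m ⊕ Z3 m
  | none => Sum.inr x
  | some true => Sum.inl x
  | some false => Sum.inl (x - 1)

def ed1 (m : ℕ) (p : W × Z3 m) : Option Bool → (W × Z3 m) ⊕ LE m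
  | none => Sum.inr (le m p.1 p.2)
  | some true => Sum.inl p
  | some false => Sum.inl (p.1, p.2 - 1)

theorem sub_one_ne {m : ℕ} (hm : 0 < m) (x : Z3 m) : x - 1 ≠ x := by
  have : Fact (1 < 3 * m) := ⟨by omega⟩
  intro h
  have h1 : (1 : Z3 m) = 0 := by
    have := sub_eq_self.1 h
    exact this
  exact one_ne_zero h1

theorem desc2 {m : ℕ} (hm : 0 < m) : Describes (C2 m) (DD2 m) (ed2 m) where
  ends := by
    rintro x (_ | b)
    · rfl
    · cases b
      · change s(x - 1, x - 1 + 1) = s(x, x - 1)
        rw [sub_add_cancel, Sym2.eq_swap]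
      · rfl
  bij := by
    intro x
    refine ⟨?_, ?_, ?_⟩
    · rintro (_ | b) _
      · exact Sym2.mem_mk_left x x
      · cases b
        · change x ∈ s(x - 1, x - 1 + 1)
          rw [sub_add_cancel]
          exact Sym2.mem_mk_right _ _
        · exact Sym2.mem_mk_left _ _
    · rintro (_ | b) _ (_ | b') _ h
      · rfl
      · cases b' <;> cases h
      · cases b <;> cases h
      · cases b <;> cases b'
        · rfl
        · exact absurd (Sum.inl_injective h) (sub_one_ne hm x)
        · exact absurd (Sum.inl_injective h).symm (sub_one_ne hm x)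
        · rfl
    · rintro (y | y) he
      · have he' : x ∈ s(y, y + 1) := he
        rw [Sym2.mem_iff] at he'
        rcases he' with rfl | rfl
        · exact ⟨some true, trivial, rfl⟩
        · refine ⟨some false, trivial, ?_⟩
          change Sum.inl (y + 1 - 1) = _
          rw [add_sub_cancel_right]
      · have he' : x ∈ s(y, y) := he
        rw [Sym2.mem_iff] at he'
        have : x = y := by rcases he' with h | h <;> exact h
        subst this
        exact ⟨none, trivial, rfl⟩

theorem desc1 {m : ℕ} (hm : 0 < m) : Describes (C1 m) (DD1 m) (ed1 m) where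
  ends := by
    rintro ⟨w, x⟩ (_ | b)
    · rfl
    · cases b
      · change s((w, x - 1), (w, x - 1 + 1)) = s((w, x), (w, x - 1))
        rw [sub_add_cancel, Sym2.eq_swap]
      · rfl
  bij := by
    rintro ⟨w, x⟩
    refine ⟨?_, ?_, ?_⟩
    · rintro (_ | b) _
      · exact Sym2.mem_mk_left (w, x) (cr m x w, x)
      · cases b
        · change (w, x) ∈ s((w, x - 1), (w, x - 1 + 1))
          rw [sub_add_cancel]
          exact Sym2.mem_mk_right _ _
        · exact Sym2.mem_mk_left _ _
    · rintro (_ | b) _ (_ | b') _ h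
      · rfl
      · cases b' <;> cases h
      · cases b <;> cases h
      · cases b <;> cases b'
        · rfl
        · have h1 : (w, x - 1) = (w, x) := Sum.inl_injective h
          exact absurd (congrArg Prod.snd h1) (sub_one_ne hm x)
        · have h1 : (w, x) = (w, x - 1) := Sum.inl_injective h
          exact absurd (congrArg Prod.snd h1).symm (sub_one_ne hm x)
        · rfl
    · rintro (⟨w', y⟩ | e) he
      · have he' : (w, x) ∈ s((w', y), (w', y + 1)) := he
        rw [Sym2.mem_iff] at he'
        rcases he' with h | h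
        · obtain ⟨rfl, rfl⟩ := Prod.mk.inj h
          exact ⟨some true, trivial, rfl⟩
        · obtain ⟨rfl, rfl⟩ := Prod.mk.inj h
          refine ⟨some false, trivial, ?_⟩
          change Sum.inl (w, y + 1 - 1) = _
          rw [add_sub_cancel_right]
      · obtain ⟨⟨z, y⟩, u, hu⟩ := e
        simp only at hu
        subst hu
        have he' : (w, x) ∈ s((u, y), (cr m y u, y)) := he
        rw [Sym2.mem_iff] at he'
        refine ⟨none, trivial, ?_⟩
        rcases he' with h | h
        · obtain ⟨rfl, rfl⟩ := Prod.mk.inj h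
          rfl
        · obtain ⟨rfl, rfl⟩ := Prod.mk.inj h
          change Sum.inr (le m (cr m x u) x) = _
          rw [le_cr]
          rfl

/-- The covering map on edges. -/
def psi (m : ℕ) : (W × Z3 m) ⊕ LE m → Z3 m ⊕ Z3 m := Sum.map Prod.snd fun e => e.1.2

theorem psi_surj (m : ℕ) : Function.Surjective (psi m) := by
  rintro (x | x)
  · exact ⟨Sum.inl (e0, x), rfl⟩
  · exact ⟨Sum.inr (le m e0 x), rfl⟩

theorem psi_ends (m : ℕ) (e : (W × Z3 m) ⊕ LE m) : (C2 m).ends (psi m e) = ((C1 m).ends e).map Prod.snd := by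
  rcases e with ⟨w, x⟩ | e
  · rfl
  · obtain ⟨⟨z, y⟩, u, hu⟩ := e
    simp only at hu
    subst hu
    rfl

theorem psi_ed (m : ℕ) (p : W × Z3 m) (i : Option Bool) : psi m (ed1 m p i) = ed2 m p.2 i := by
  rcases i with _ | b
  · rfl
  · cases b <;> rfl

theorem col_well {m : ℕ} (hm : 0 < m) (c : Fin 3) : col m (((c : ℕ) * m : ℕ) : ZMod (3 * m)) = some c := by
  have hne : ∀ a b : ℕ, a < 3 * m → b < 3 * m → a ≠ b → (a : ZMod (3 * m)) ≠ b := by
    intro a b ha hb hab h
    rw [ZMod.natCast_eq_natCast_iff'] at h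
    rw [Nat.mod_eq_of_lt ha, Nat.mod_eq_of_lt hb] at h
    exact hab h
  unfold col
  fin_cases c
  · simp
  · have h1 : ((m : ℕ) : ZMod (3 * m)) ≠ 0 := by
      have := hne m 0 (by omega) (by omega) (by omega)
      simpa using this
    simp [h1]
  · have h1 : ((2 * m : ℕ) : ZMod (3 * m)) ≠ 0 := by
      have := hne (2 * m) 0 (by omega) (by omega) (by omega)
      simpa using this
    have h2 : ((2 * m : ℕ) : ZMod (3 * m)) ≠ (m : ZMod (3 * m)) := hne (2 * m) m (by omega) (by omega) (by omega)
    change (if ((2 * m : ℕ) : ZMod (3 * m)) = 0 then _ else _) = _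
    rw [if_neg h1, if_neg h2, if_pos rfl]
    rfl

theorem connected1 {m : ℕ} (hm : 0 < m) : (C1 m).Connected := by
  have : NeZero (3 * m) := ⟨by omega⟩
  refine ⟨⟨(e0, 0)⟩, ?_⟩
  have hs : ∀ x y : W × Z3 m, (∃ e, (C1 m).ends e = s(x, y)) → ∃ e, (C1 m).ends e = s(y, x) := by
    rintro x y ⟨e, he⟩
    exact ⟨e, by rw [he, Sym2.eq_swap]⟩
  have hsR : ∀ x y : W × Z3 m, Relation.ReflTransGen (fun x y => ∃ e, (C1 m).ends e = s(x, y)) x y →
      Relation.ReflTransGen (fun x y => ∃ e, (C1 m).ends e = s(x, y)) y x := by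
    intro x y h
    induction h with
    | refl => exact Relation.ReflTransGen.refl
    | tail _ h ih => exact Relation.ReflTransGen.head (hs _ _ h) ih
  have hrow : ∀ (w : W) (n : ℕ), Relation.ReflTransGen (fun x y => ∃ e, (C1 m).ends e = s(x, y))
      (w, (0 : Z3 m)) (w, (n : Z3 m)) := by
    intro w n
    induction n with
    | zero => rw [Nat.cast_zero]
    | succ n ih =>
      refine ih.tail ⟨Sum.inl (w, (n : Z3 m)), ?_⟩
      change s((w, (n : Z3 m)), (w, (n : Z3 m) + 1)) = _
      rw [Nat.cast_succ]
  have hrow' : ∀ (w : W) (x : Z3 m), Relation.ReflTransGen (fun x y => ∃ e, (C1 m).ends e = s(x, y))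
      (w, (0 : Z3 m)) (w, x) := by
    intro w x
    have := hrow w x.val
    rwa [ZMod.natCast_zmod_val] at this
  have hroot : ∀ w : W, Relation.ReflTransGen (fun x y => ∃ e, (C1 m).ends e = s(x, y))
      (e0, (0 : Z3 m)) (w, 0) := by
    intro w
    induction w using W_induction with
    | h0 => exact Relation.ReflTransGen.refl
    | h1 c w ih =>
      refine (ih.trans (hrow' w (((c : ℕ) * m : ℕ) : ZMod (3 * m)))).trans ?_
      refine Relation.ReflTransGen.head ⟨Sum.inr (le m w (((c : ℕ) * m : ℕ) : ZMod (3 * m))), ?_⟩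
        (hsR _ _ (hrow' (act c w) (((c : ℕ) * m : ℕ) : ZMod (3 * m))))
      change s((w, _), (cr m _ w, _)) = _
      have h1 : cr m (((c : ℕ) * m : ℕ) : ZMod (3 * m)) w = act c w := by
        unfold cr
        rw [col_well hm c]
      rw [h1]
      rfl
  rintro ⟨w, x⟩ ⟨w', x'⟩
  exact (hsR _ _ ((hroot w).trans (hrow' w x))).trans ((hroot w').trans (hrow' w' x'))

end Pool.Agent.H70.SG
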