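import Pool.Agent.H70.SG.Defs

set_option autoImplicit false

/-! A half line attached at every vertex of a graph. -/

namespace Pool.Agent.H70.SG

open Filter Topology Pool.Agent.H751R3.Dart

variable {Y E Y₁ E₁ Y₂ E₂ ι : Type}

/-- The graph with a half line attached at every vertex. -/
def Gr.deco (Γ : Gr Y E) : Gr (Y × ℕ) (E ⊕ Y × ℕ) where
  ends := Sum.elim (fun e => (Γ.ends e).map fun y => (y, 0)) (fun p => s(p, (p.1, p.2 + 1)))

/-- Darts which are defined everywhere. -/
structure Da (Y ι : Type) where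
  σ : ι → Y → Y
  rev : ι → ι
  rev_rev : ∀ i, rev (rev i) = i
  inv : ∀ i y, σ (rev i) (σ i y) = y

/-- The darts of the decorated graph. -/
def Da.sys (D : Da Y ι) : Sys (Y × ℕ) (ι ⊕ Bool) where
  S := fun i => match i with
    | Sum.inl _ => {v | v.2 = 0}
    | Sum.inr true => Set.univ
    | Sum.inr false => {v | v.2 ≠ 0}
  σ := fun i v => match i with
    | Sum.inl i => (D.σ i v.1, v.2)
    | Sum.inr true => (v.1, v.2 + 1)
    | Sum.inr false => (v.1, v.2 - 1)
  rev := fun i => match i with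
    | Sum.inl i => Sum.inl (D.rev i)
    | Sum.inr b => Sum.inr !b
  rev_rev := by
    rintro (i | b)
    · simp [D.rev_rev]
    · simp
  mem := by
    rintro (i | b) ⟨w, n⟩ h
    · exact h
    · cases b
      · trivial
      · exact Nat.succ_ne_zero n
  inv := by
    rintro (i | b) ⟨w, n⟩ h
    · simp [D.inv]
    · cases b
      · have hn : n ≠ 0 := h
        simp only [Bool.not_false, Prod.mk.injEq, true_and]
        omega
      · simp

/-- The edge under a dart. -/
def edd (ed : Y → ι → E) (v : Y × ℕ) : ι ⊕ Bool → E ⊕ Y × ℕ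
  | Sum.inl i => Sum.inl (ed v.1 i)
  | Sum.inr true => Sum.inr v
  | Sum.inr false => Sum.inr (v.1, v.2 - 1)

/-- The darts `D` with the edges `ed` describe the graph `Γ`. -/
structure Describes (Γ : Gr Y E) (D : Da Y ι) (ed : Y → ι → E) : Prop where
  ends : ∀ y i, Γ.ends (ed y i) = s(y, D.σ i y)
  bij : ∀ y, Set.BijOn (ed y) Set.univ (Γ.star y)

theorem Describes.ends' {Γ : Gr Y E} {D : Da Y ι} {ed : Y → ι → E} (h : Describes Γ D ed) (v : Y × ℕ)
    (i : ι ⊕ Bool) (hi : v ∈ D.sys.S i) : Γ.deco.ends (edd ed v i) = s(v, D.sys.σ i v) := by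
  obtain ⟨w, n⟩ := v
  rcases i with i | b
  · have hn : n = 0 := hi
    subst hn
    change (Γ.ends (ed w i)).map (fun y => (y, 0)) = _
    rw [h.ends]
    rfl
  · cases b
    · have hn : n ≠ 0 := hi
      change s((w, n - 1), (w, n - 1 + 1)) = s((w, n), (w, n - 1))
      rw [Sym2.eq_swap]
      congr 3
      omega
    · rfl

theorem Describes.bij' {Γ : Gr Y E} {D : Da Y ι} {ed : Y → ι → E} (h : Describes Γ D ed) (v : Y × ℕ) :
    Set.BijOn (edd ed v) {i | v ∈ D.sys.S i} (Γ.deco.star v) := by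
  refine ⟨?_, ?_, ?_⟩
  · intro i hi
    change v ∈ Γ.deco.ends (edd ed v i)
    rw [h.ends' v i hi]
    exact Sym2.mem_mk_left _ _
  · rintro (c | b) hi (d | b') hj he
    · have h1 : ed v.1 c = ed v.1 d := Sum.inl_injective he
      rw [(h.bij v.1).injOn (Set.mem_univ c) (Set.mem_univ d) h1]
    · cases b' <;> cases he
    · cases b <;> cases he
    · have hn : ∀ n : ℕ, n ≠ 0 → n - 1 ≠ n := by intro n hn; omega
      cases b <;> cases b'
      · rfl
      · exfalso
        have h1 : (v.1, v.2 - 1) = v := Sum.inr_injective he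
        exact hn v.2 hi (congrArg Prod.snd h1)
      · exfalso
        have h1 : v = (v.1, v.2 - 1) := Sum.inr_injective he
        exact hn v.2 hj (congrArg Prod.snd h1).symm
      · rfl
  · rintro (x | ⟨w, m⟩) he
    · have he' : v ∈ (Γ.ends x).map fun y => (y, 0) := he
      rw [Sym2.mem_map] at he'
      obtain ⟨y, hy, rfl⟩ := he'
      obtain ⟨i, _, hi⟩ := (h.bij y).surjOn hy
      exact ⟨Sum.inl i, rfl, congrArg Sum.inl hi⟩
    · have he' : v ∈ s((w, m), (w, m + 1)) := he
      rw [Sym2.mem_iff] at he'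
      rcases he' with rfl | rfl
      · exact ⟨Sum.inr true, trivial, rfl⟩
      · exact ⟨Sum.inr false, Nat.succ_ne_zero m, rfl⟩

theorem Describes.degree [Fintype ι] [Nonempty ι] {Γ : Gr Y E} {D : Da Y ι} {ed : Y → ι → E} (h : Describes Γ D ed) (v : Y × ℕ) :
    (Γ.deco.star v).encard ≤ Fintype.card ι + 1 := by
  rw [← (h.bij' v).image_eq]
  refine (Set.encard_image_le _ _).trans ?_
  by_cases hv : v.2 = 0
  · have h1 : {i | v ∈ D.sys.S i} ⊆ Set.range (fun o : Option ι => match o with
        | none => Sum.inr true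
        | some i => Sum.inl i) := by
      rintro (i | b) hi
      · exact ⟨some i, rfl⟩
      · cases b
        · exact absurd hv hi
        · exact ⟨none, rfl⟩
    refine (Set.encard_le_encard h1).trans ?_
    rw [← Set.image_univ]
    refine (Set.encard_image_le _ _).trans ?_
    rw [Set.encard_univ]
    simp
  · have h1 : {i | v ∈ D.sys.S i} ⊆ Set.range (fun b : Bool => (Sum.inr b : ι ⊕ Bool)) := by
      rintro (i | b) hi
      · exact absurd hi hv
      · exact ⟨b, rfl⟩
    refine (Set.encard_le_encard h1).trans ?_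
    rw [← Set.image_univ]
    refine (Set.encard_image_le _ _).trans ?_
    rw [Set.encard_univ]
    simp only [ENat.card_eq_coe_fintype_card, Fintype.card_bool]
    have : 1 ≤ Fintype.card ι := Fintype.card_pos
    exact_mod_cast (by omega : 2 ≤ Fintype.card ι + 1)

/-- coverings extend to the decorated graphs -/
theorem covering_deco {Γ₁ : Gr Y₁ E₁} {Γ₂ : Gr Y₂ E₂} {φ : Y₁ → Y₂} {ψ : E₁ → E₂} {D₁ : Da Y₁ ι} {D₂ : Da Y₂ ι}
    {ed₁ : Y₁ → ι → E₁} {ed₂ : Y₂ → ι → E₂} (h₁ : Describes Γ₁ D₁ ed₁) (h₂ : Describes Γ₂ D₂ ed₂)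
    (hφ : Function.Surjective φ) (hψ : Function.Surjective ψ) (he : ∀ e, Γ₂.ends (ψ e) = (Γ₁.ends e).map φ)
    (hed : ∀ y i, ψ (ed₁ y i) = ed₂ (φ y) i) :
    IsCovering Γ₁.deco (fun _ _ => 1) Γ₂.deco (fun _ _ => 1) (Prod.map φ id) (Sum.map ψ (Prod.map φ id)) where
  surj_vert := hφ.prodMap Function.surjective_id
  surj_edge := hψ.sumMap (hφ.prodMap Function.surjective_id)
  ends := by
    rintro (e | ⟨w, m⟩)
    · change (Γ₂.ends (ψ e)).map (fun y => (y, 0)) = ((Γ₁.ends e).map fun y => (y, 0)).map (Prod.map φ id)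
      rw [he, Sym2.map_map, Sym2.map_map]
      rfl
    · rfl
  bij := by
    intro v
    have h1 := h₁.bij' v
    have h2 := h₂.bij' (Prod.map φ id v)
    have hdom : {i | v ∈ D₁.sys.S i} = {i | Prod.map φ id v ∈ D₂.sys.S i} := by
      ext i
      rcases i with c | b
      · rfl
      · cases b <;> exact Iff.rfl
    have hps : ∀ i, Sum.map ψ (Prod.map φ id) (edd ed₁ v i) = edd ed₂ (Prod.map φ id v) i := by
      rintro (c | b)
      · exact congrArg Sum.inl (hed v.1 c)
      · cases b <;> rfl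
    rw [← hdom] at h2
    refine ⟨?_, ?_, ?_⟩
    · intro e he
      obtain ⟨i, hi, rfl⟩ := h1.surjOn he
      rw [hps]
      exact h2.mapsTo hi
    · intro e he e' he' h
      obtain ⟨i, hi, rfl⟩ := h1.surjOn he
      obtain ⟨j, hj, rfl⟩ := h1.surjOn he'
      rw [hps, hps] at h
      rw [h2.injOn hi hj h]
    · intro e he
      obtain ⟨i, hi, rfl⟩ := h2.surjOn he
      exact ⟨edd ed₁ v i, h1.mapsTo hi, hps i⟩
  weight := fun _ _ _ => rfl

theorem connected_deco {Γ : Gr Y E} (h : Γ.Connected) : Γ.deco.Connected := by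
  obtain ⟨⟨y₀⟩, hc⟩ := h
  refine ⟨⟨(y₀, 0)⟩, ?_⟩
  have key : ∀ v : Y × ℕ, Relation.ReflTransGen (fun x y => ∃ e, Γ.deco.ends e = s(x, y)) (y₀, 0) v := by
    rintro ⟨w, n⟩
    induction n with
    | zero =>
      have := hc y₀ w
      induction this with
      | refl => exact Relation.ReflTransGen.refl
      | tail _ h ih =>
        obtain ⟨e, he⟩ := h
        refine ih.tail ⟨Sum.inl e, ?_⟩
        change (Γ.ends e).map (fun y => (y, 0)) = _
        rw [he]
        rfl
    | succ n ih => exact ih.tail ⟨Sum.inr (w, n), rfl⟩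
  have hs : ∀ x y : Y × ℕ, (∃ e, Γ.deco.ends e = s(x, y)) → ∃ e, Γ.deco.ends e = s(y, x) := by
    rintro x y ⟨e, he⟩
    exact ⟨e, by rw [he, Sym2.eq_swap]⟩
  intro u v
  refine Relation.ReflTransGen.trans ?_ (key v)
  have := key u
  induction this with
  | refl => exact Relation.ReflTransGen.refl
  | tail _ h ih => exact Relation.ReflTransGen.head (hs _ _ h) ih

theorem Describes.adj {Γ : Gr Y E} {D : Da Y ι} {ed : Y → ι → E} (h : Describes Γ D ed) {v w : Y × ℕ}
    {e : E ⊕ Y × ℕ} (he : Γ.deco.ends e = s(v, w)) : ∃ i, v ∈ D.sys.S i ∧ w = D.sys.σ i v := by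
  have h1 : e ∈ Γ.deco.star v := by
    change v ∈ Γ.deco.ends e
    rw [he]
    exact Sym2.mem_mk_left _ _
  obtain ⟨i, hi, rfl⟩ := (h.bij' v).surjOn h1
  refine ⟨i, hi, ?_⟩
  rw [h.ends' v i hi] at he
  exact (Sym2.congr_right.1 he).symm

theorem Describes.adj0 {Γ : Gr Y E} {D : Da Y ι} {ed : Y → ι → E} (h : Describes Γ D ed) {v w : Y}
    {e : E} (he : Γ.ends e = s(v, w)) : ∃ i, w = D.σ i v := by
  have h1 : e ∈ Γ.star v := by
    change v ∈ Γ.ends e
    rw [he]
    exact Sym2.mem_mk_left _ _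
  obtain ⟨i, _, rfl⟩ := (h.bij v).surjOn h1
  refine ⟨i, ?_⟩
  rw [h.ends v i] at he
  exact (Sym2.congr_right.1 he).symm

open Classical in
/-- Balls. -/
noncomputable def tbl [Fintype ι] (D : Da Y ι) (y₀ : Y) : ℕ → Finset Y
  | 0 => {y₀}
  | k + 1 => tbl D y₀ k ∪ (Finset.univ ×ˢ tbl D y₀ k).image fun p : ι × Y => D.σ p.1 p.2

open Classical in
theorem amenable_deco [Fintype ι] {Γ : Gr Y E} {D : Da Y ι} {ed : Y → ι → E} (h : Describes Γ D ed)
    (hc : Γ.Connected) : Γ.deco.Amenable := by
  obtain ⟨⟨y₀⟩, hc⟩ := hc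
  have hpos : ∀ k, 0 < (tbl D y₀ k).card := by
    intro k
    have : y₀ ∈ tbl D y₀ k := by
      induction k with
      | zero => simp [tbl]
      | succ k ih => exact Finset.mem_union_left _ ih
    exact Finset.card_pos.2 ⟨_, this⟩
  have hmono : Monotone (tbl D y₀) := monotone_nat_of_le_succ fun k => Finset.subset_union_left
  have hex : ∀ y, ∃ k, y ∈ tbl D y₀ k := by
    intro y
    have := hc y₀ y
    induction this with
    | refl => exact ⟨0, by simp [tbl]⟩
    | tail _ h1 ih =>
      obtain ⟨k, hk⟩ := ih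
      obtain ⟨e, he⟩ := h1
      obtain ⟨i, rfl⟩ := h.adj0 he
      refine ⟨k + 1, Finset.mem_union_right _ ?_⟩
      rw [Finset.mem_image]
      exact ⟨(i, _), by simpa using hk, rfl⟩
  refine ⟨fun k => tbl D y₀ k ×ˢ Finset.range (k + 1), ?_, ?_, ?_⟩
  · refine monotone_nat_of_le_succ fun k => ?_
    refine Finset.product_subset_product Finset.subset_union_left ?_
    exact Finset.range_mono (by omega)
  · rintro ⟨w, n⟩
    obtain ⟨k, hk⟩ := hex w
    refine ⟨max k n, ?_⟩
    rw [Finset.mem_product]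
    refine ⟨hmono (le_max_left k n) hk, ?_⟩
    rw [Finset.mem_range]
    have := le_max_right k n
    omega
  · set d := Fintype.card ι with hd
    have hb : ∀ k : ℕ, (Γ.deco.ball (tbl D y₀ k ×ˢ Finset.range (k + 1) : Finset (Y × ℕ)) \
        ((tbl D y₀ k ×ˢ Finset.range (k + 1) : Finset (Y × ℕ)) : Set (Y × ℕ))).ncard ≤
          (d + 1) * (tbl D y₀ k).card := by
      intro k
      set B : Finset (Y × ℕ) :=
        ((Finset.univ ×ˢ tbl D y₀ k).image fun p : ι × Y => D.σ p.1 p.2) ×ˢ {0} ∪
          tbl D y₀ k ×ˢ {k + 1} with hB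
      have hsub : (Γ.deco.ball (tbl D y₀ k ×ˢ Finset.range (k + 1) : Finset (Y × ℕ)) \
        ((tbl D y₀ k ×ˢ Finset.range (k + 1) : Finset (Y × ℕ)) : Set (Y × ℕ))) ⊆ (B : Set (Y × ℕ)) := by
        rintro ⟨w, n⟩ ⟨h1, h2⟩
        rcases h1 with h1 | ⟨⟨w', n'⟩, h3, e, he⟩
        · exact absurd h1 h2
        · rw [Finset.mem_coe, Finset.mem_product, Finset.mem_range] at h3 h2
          obtain ⟨h3, h4⟩ := h3
          simp only at h3 h4
          obtain ⟨i, hi, hw⟩ := h.adj he
          rw [Finset.mem_coe, hB, Finset.mem_union]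
          rcases i with i | b
          · have hn : n' = 0 := hi
            have hw' : (w, n) = (D.σ i w', n') := hw
            obtain ⟨rfl, rfl⟩ := Prod.mk.inj hw'
            left
            rw [Finset.mem_product]
            refine ⟨?_, by simp [hn]⟩
            rw [Finset.mem_image]
            exact ⟨(i, w'), by simpa using h3, rfl⟩
          · simp only [not_and, not_lt] at h2
            cases b
            · have hw' : (w, n) = (w', n' - 1) := hw
              obtain ⟨rfl, rfl⟩ := Prod.mk.inj hw'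
              have := h2 h3
              omega
            · have hw' : (w, n) = (w', n' + 1) := hw
              obtain ⟨rfl, rfl⟩ := Prod.mk.inj hw'
              have := h2 h3
              right
              rw [Finset.mem_product]
              refine ⟨h3, ?_⟩
              rw [Finset.mem_singleton]
              change n' + 1 = k + 1
              omega
      refine (Set.ncard_le_ncard hsub (Finset.finite_toSet _)).trans ?_
      rw [Set.ncard_coe_finset]
      refine (Finset.card_union_le _ _).trans ?_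
      rw [Finset.card_product, Finset.card_product, Finset.card_singleton, Finset.card_singleton]
      have h1 : ((Finset.univ ×ˢ tbl D y₀ k).image fun p : ι × Y => D.σ p.1 p.2).card ≤
          d * (tbl D y₀ k).card := by
        refine Finset.card_image_le.trans ?_
        rw [Finset.card_product, Finset.card_univ]
      nlinarith
    refine squeeze_zero (fun k => by positivity) (g := fun k : ℕ => ((d : ℝ) + 1) / ((k : ℝ) + 1)) ?_ ?_
    · intro k
      have h1 : (((tbl D y₀ k ×ˢ Finset.range (k + 1) : Finset (Y × ℕ))).card : ℝ) =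
          (tbl D y₀ k).card * ((k : ℝ) + 1) := by
        rw [Finset.card_product, Finset.card_range]
        push_cast
        ring
      rw [h1]
      have h2 : (0 : ℝ) < (tbl D y₀ k).card := by exact_mod_cast hpos k
      have h3 : (0 : ℝ) < (k : ℝ) + 1 := by positivity
      rw [div_le_div_iff₀ (by positivity) h3]
      have h4 : (((Γ.deco.ball (tbl D y₀ k ×ˢ Finset.range (k + 1) : Finset (Y × ℕ)) \
        ((tbl D y₀ k ×ˢ Finset.range (k + 1) : Finset (Y × ℕ)) : Set (Y × ℕ))).ncard : ℕ) : ℝ) ≤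
          (d + 1) * (tbl D y₀ k).card := by exact_mod_cast hb k
      nlinarith
    · have h1 := tendsto_one_div_add_atTop_nhds_zero_nat (𝕜 := ℝ)
      have h2 := h1.const_mul ((d : ℝ) + 1)
      simpa [div_eq_mul_inv] using h2

/-- a bound for the balls of the decorated graph -/
theorem nball_deco {Γ : Gr Y E} {D : Da Y ι} {ed : Y → ι → E} (h : Describes Γ D ed) (f : Y → ℕ)
    (hf : ∀ y i, f (D.σ i y) ≤ f y + 1) (v : Y × ℕ) (n : ℕ) :
    Γ.deco.nball v n ⊆ {w | f w.1 ≤ f v.1 + n ∧ w.2 ≤ v.2 + n} := by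
  induction n with
  | zero =>
    intro w hw
    have hw' : w = v := hw
    subst hw'
    exact ⟨le_rfl, le_rfl⟩
  | succ n ih =>
    rintro w (hw | ⟨u, hu, e, he⟩)
    · obtain ⟨h1, h2⟩ := ih hw
      exact ⟨by omega, by omega⟩
    · obtain ⟨h1, h2⟩ := ih hu
      obtain ⟨i, hi, rfl⟩ := h.adj he
      rcases i with i | b
      · have h3 := hf u.1 i
        exact ⟨by change f (D.σ i u.1) ≤ _; omega, by change u.2 ≤ _; omega⟩
      · cases b
        · exact ⟨by change f u.1 ≤ _; omega, by change u.2 - 1 ≤ _; omega⟩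
        · exact ⟨by change f u.1 ≤ _; omega, by change u.2 + 1 ≤ _; omega⟩

end Pool.Agent.H70.SG
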