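import Pool.Graph.R_seed8.H751R3.T3
import Pool.Graph.R_seed8.H751R3.Dart

set_option autoImplicit false

/-!
Weighted graphs, coverings, amenability, Laplace type operators (definitions and general lemmas as in the library
module `Results/MP_5b767b_an/AmenableInclusionFails`), and balls.
-/

namespace Pool.Agent.H70.SG

open Filter Topology Pool.Agent.H751R3 Pool.Agent.H751R3.Dart

/-- An undirected graph with vertex set `V` and edge set `E`, multiple edges and loops allowed: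
`ends e` is the unordered pair of the endpoints of `e`, equal to `s(v, v)` for a loop at `v`. -/
structure Gr (V E : Type) where
  ends : E → Sym2 V

variable {V E V₁ E₁ V₂ E₂ : Type}

/-- The set `E_v` of the edges at `v`; a loop at `v` is one element of it. -/
def Gr.star (Γ : Gr V E) (v : V) : Set E := {e | v ∈ Γ.ends e}

open Classical in
/-- The other endpoint `r_v(e)` of an edge `e` at `v`; it is `v` for a loop. -/
noncomputable def Gr.other (Γ : Gr V E) (v : V) (e : E) : V :=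
  if h : v ∈ Γ.ends e then Sym2.Mem.other h else v

/-- Degrees and weights are uniformly bounded. -/
def UniformlyBounded (Γ : Gr V E) (α : V → E → ℂ) : Prop :=
  (∃ D : ℕ, ∀ v, (Γ.star v).encard ≤ D) ∧ ∃ C : ℝ, ∀ v, ∀ e ∈ Γ.star v, ‖α v e‖ ≤ C

/-- The graph is connected. -/
def Gr.Connected (Γ : Gr V E) : Prop :=
  Nonempty V ∧ ∀ u v : V, Relation.ReflTransGen (fun x y => ∃ e, Γ.ends e = s(x, y)) u v

/-- `B_1(A)`: the vertices at distance at most one from `A`. -/
def Gr.ball (Γ : Gr V E) (A : Set V) : Set V :=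
  {w | w ∈ A ∨ ∃ v ∈ A, ∃ e, Γ.ends e = s(v, w)}

/-- `B_n(v)`: the vertices at distance at most `n` from `v`. -/
def Gr.nball (Γ : Gr V E) (v : V) : ℕ → Set V
  | 0 => {v}
  | n + 1 => Γ.ball (Γ.nball v n)

/-- Amenability: finite sets `F 0 ⊆ F 1 ⊆ ...` exhaust `V` and
`|B_1(F k) \ F k| / |F k| → 0`. -/
def Gr.Amenable (Γ : Gr V E) : Prop :=
  ∃ F : ℕ → Finset V, Monotone F ∧ (∀ v, ∃ k, v ∈ F k) ∧
    Tendsto (fun k => ((Γ.ball (F k) \ (F k : Set V)).ncard : ℝ) / ((F k).card : ℝ)) atTop (𝓝 0)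

/-- The complex Hilbert space `ℓ²(V)`. -/
abbrev H2 (V : Type) : Type := lp (fun _ : V => ℂ) 2

/-- The bounded operators on `ℓ²(V)`. -/
abbrev Op (V : Type) : Type := H2 V →L[ℂ] H2 V

/-- The spectrum `σ(H)` of a bounded operator: the `lam` for which `H - lam` has no bounded
two-sided inverse `T`. -/
def spec (H : Op V) : Set ℂ :=
  {lam | ¬ ∃ T : Op V, ∀ f : H2 V, T (H f - lam • f) = f ∧ H (T f) - lam • T f = f}

/-- `H` is the Laplace type operator `(H f)(v) = ∑_{e ∈ E_v} α_{v,e} f(r_v(e))` on `ℓ²(V)`. -/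
def IsLaplaceType (Γ : Gr V E) (α : V → E → ℂ) (H : Op V) : Prop :=
  ∀ (f : H2 V) (v : V), H f v = ∑ᶠ e ∈ Γ.star v, α v e * f (Γ.other v e)

/-- `(Γ₁, α₁)` covers `(Γ₂, α₂)` through `φ` on vertices and `ψ` on edges. -/
structure IsCovering (Γ₁ : Gr V₁ E₁) (α₁ : V₁ → E₁ → ℂ) (Γ₂ : Gr V₂ E₂) (α₂ : V₂ → E₂ → ℂ)
    (φ : V₁ → V₂) (ψ : E₁ → E₂) : Prop where
  surj_vert : Function.Surjective φ
  surj_edge : Function.Surjective ψ
  ends : ∀ e, Γ₂.ends (ψ e) = (Γ₁.ends e).map φ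
  bij : ∀ v, Set.BijOn ψ (Γ₁.star v) (Γ₂.star (φ v))
  weight : ∀ v, ∀ e ∈ Γ₁.star v, α₁ v e = α₂ (φ v) (ψ e)

/-! ### General lemmas -/

theorem other_eq (Γ : Gr V E) {v u : V} {e : E} (h : Γ.ends e = s(v, u)) : Γ.other v e = u := by
  have hv : v ∈ Γ.ends e := by rw [h]; exact Sym2.mem_mk_left v u
  unfold Gr.other
  rw [dif_pos hv]
  have h1 : s(v, Sym2.Mem.other hv) = s(v, u) := (Sym2.other_spec hv).trans h
  exact Sym2.congr_right.1 h1

theorem laplace_of_sys {ι : Type} [Fintype ι] (Γ : Gr V E) (D : Sys V ι) (ed : V → ι → E)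
    (h1 : ∀ v, Set.BijOn (ed v) {i | v ∈ D.S i} (Γ.star v))
    (h2 : ∀ v i, v ∈ D.S i → Γ.ends (ed v i) = s(v, D.σ i v)) :
    IsLaplaceType Γ (fun _ _ => 1) D.op := by
  classical
  intro f v
  rw [D.op_apply]
  have h3 : ∑ᶠ e ∈ Γ.star v, (1 : ℂ) * f (Γ.other v e) =
      ∑ᶠ i ∈ {i | v ∈ D.S i}, f (D.σ i v) := by
    symm
    refine finsum_mem_eq_of_bijOn (ed v) (h1 v) fun i hi => ?_
    rw [other_eq Γ (h2 v i hi), one_mul]
  rw [h3, finsum_mem_eq_finite_toFinset_sum _ (Set.toFinite _)]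
  rw [← Finset.sum_subset (Finset.subset_univ _) (f := fun i => cf (D.S i) (D.σ i) f v)]
  · refine Finset.sum_congr rfl fun i hi => ?_
    have hi' : v ∈ D.S i := by simpa using hi
    simp [cf, hi']
  · intro i _ hi
    have hi' : v ∉ D.S i := by simpa using hi
    simp [cf, hi']


theorem mem_spec_iff (H : Op V) (lam : ℂ) : lam ∈ spec H ↔ lam ∈ spectrum ℂ H := by
  unfold spec
  rw [spectrum.mem_iff, Set.mem_ofPred_eq, not_iff_not]
  constructor
  · rintro ⟨T, hT⟩
    rw [ContinuousLinearMap.isUnit_iff_bijective]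
    have h1 : ∀ f, (algebraMap ℂ (Op V) lam - H) f = - (H f - lam • f) := by
      intro f
      simp [Algebra.algebraMap_eq_smul_one]
    constructor
    · intro f g hfg
      rw [h1, h1, neg_inj] at hfg
      rw [← (hT f).1, hfg, (hT g).1]
    · intro f
      refine ⟨- T f, ?_⟩
      rw [h1, map_neg, smul_neg, ← neg_sub_neg, neg_neg, neg_neg]
      have := (hT f).2
      rw [← this]
      simp [this]
  · rintro ⟨u, hu⟩
    refine ⟨- (↑u⁻¹ : Op V), fun f => ?_⟩
    have h1 : ∀ f, (u : Op V) f = lam • f - H f := by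
      intro f
      rw [hu]
      simp [Algebra.algebraMap_eq_smul_one]
    have h2 : ∀ f, (↑u⁻¹ : Op V) ((u : Op V) f) = f := by
      intro f
      have : (↑u⁻¹ * ↑u : Op V) f = f := by rw [Units.inv_mul]; rfl
      exact this
    have h3 : ∀ f, (u : Op V) ((↑u⁻¹ : Op V) f) = f := by
      intro f
      have : (↑u * ↑u⁻¹ : Op V) f = f := by rw [Units.mul_inv]; rfl
      exact this
    constructor
    · have h4 : H f - lam • f = - (u : Op V) f := by rw [h1]; abel
      rw [h4]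
      change - (↑u⁻¹ : Op V) (- (u : Op V) f) = f
      rw [map_neg, h2, neg_neg]
    · change H (- (↑u⁻¹ : Op V) f) - lam • (- (↑u⁻¹ : Op V) f) = f
      have h4 := h3 f
      rw [h1] at h4
      rw [map_neg, smul_neg]
      rw [← h4]
      simp only [h4]
      rw [← h4]
      simp only [h4]
      nth_rewrite 3 [← h4]
      abel

/-- `(Γ₁, α₁)` is an amenable, connected, uniformly bounded weighted graph which covers the
uniformly bounded weighted graph `(Γ₂, α₂)`. -/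
def AmenableCovering (Γ₁ : Gr V₁ E₁) (α₁ : V₁ → E₁ → ℂ) (Γ₂ : Gr V₂ E₂) (α₂ : V₂ → E₂ → ℂ) :
    Prop :=
  Γ₁.Amenable ∧ Γ₁.Connected ∧ UniformlyBounded Γ₁ α₁ ∧ UniformlyBounded Γ₂ α₂ ∧
    ∃ (φ : V₁ → V₂) (ψ : E₁ → E₂), IsCovering Γ₁ α₁ Γ₂ α₂ φ ψ


end Pool.Agent.H70.SG
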