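import Pool.Agent.H70.SG.Wt

set_option autoImplicit false

/-! The weights on the covering of the circle, and the growth of the covering. -/

namespace Pool.Agent.H70.SG

open Filter Topology Pool.Agent.H751R3 Pool.Agent.H751R3.Dart

/-- The colour of the parent. -/
def par (w : W) : Fin 3 := w.1.head?.getD 0

noncomputable def GG (m : ℕ) (p : Fin 3) (x : Z3 m) : ℝ := gg m (x - pl m p).val

/-- The weight of a loop or tree edge. -/
noncomputable def ff (m : ℕ) (w : W) (x : Z3 m) : ℝ :=
  match col m x with
  | none => 1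
  | some c => if w.1.head? = some c then TT m else (TT m)⁻¹

/-- The weights. -/
noncomputable def s0 (m : ℕ) (i : Option Bool) (y : W × Z3 m) : ℝ :=
  match i with
  | none => ff m y.1 y.2
  | some true => GG m (par y.1) (y.2 + 1) / GG m (par y.1) y.2
  | some false => GG m (par y.1) (y.2 - 1) / GG m (par y.1) y.2

theorem GG_pos {m : ℕ} (hm : 0 < m) (p : Fin 3) (x : Z3 m) : 0 < GG m p x := by
  have : NeZero (3 * m) := ⟨by omega⟩
  exact gg_pos hm (ZMod.val_lt _).le

theorem ff_pos {m : ℕ} (hm : 0 < m) (w : W) (x : Z3 m) : 0 < ff m w x := by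
  have h1 := TT_gt hm
  unfold ff
  cases col m x with
  | none => exact one_pos
  | some c =>
    simp only
    split_ifs
    · linarith
    · exact inv_pos.2 (by linarith)

theorem ff_le {m : ℕ} (hm : 0 < m) (w : W) (x : Z3 m) : ff m w x ≤ TT m := by
  have h1 := TT_gt hm
  unfold ff
  cases col m x with
  | none => exact h1.le
  | some c =>
    simp only
    split_ifs
    · exact le_rfl
    · exact (inv_lt_one_of_one_lt₀ h1).le.trans h1.le

theorem s0_pos {m : ℕ} (hm : 0 < m) (i : Option Bool) (y : W × Z3 m) : 0 < s0 m i y := by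
  rcases i with _ | b
  · exact ff_pos hm _ _
  · cases b
    · exact div_pos (GG_pos hm _ _) (GG_pos hm _ _)
    · exact div_pos (GG_pos hm _ _) (GG_pos hm _ _)

theorem head_act {c : Fin 3} {w : W} : (act c w).1.head? = some c ↔ w.1.head? ≠ some c := by
  rcases len_act c w with ⟨h0, h1, h2⟩ | ⟨h0, h1, h2⟩
  · rw [h0, h2]
    simp only [ne_eq, not_true_eq_false, iff_false]
    obtain ⟨l, hl⟩ := w
    cases l with
    | nil => simp at h0
    | cons d l =>
      simp only [List.head?_cons, Option.some.injEq] at h0
      subst h0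
      simp only [List.tail_cons]
      cases l with
      | nil => simp
      | cons e l =>
        have : d ≠ e := (List.isChain_cons_cons.1 hl).1
        simpa using fun h => this h.symm
  · rw [h2]
    simp [h0]

theorem s0_inv {m : ℕ} (i : Option Bool) (y : W × Z3 m) :
    s0 m ((DD1 m).rev i) ((DD1 m).σ i y) = (s0 m i y)⁻¹ := by
  obtain ⟨w, x⟩ := y
  rcases i with _ | b
  · change ff m (cr m x w) x = (ff m w x)⁻¹
    unfold ff cr
    cases hc : col m x with
    | none => simp
    | some c =>
      simp only
      by_cases h : w.1.head? = some c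
      · rw [if_pos h, if_neg]
        rw [head_act]
        exact fun h' => h' h
      · rw [if_neg h, if_pos (head_act.2 h), inv_inv]
  · cases b
    · change GG m (par w) (x - 1 + 1) / GG m (par w) (x - 1) = (GG m (par w) (x - 1) / GG m (par w) x)⁻¹
      rw [sub_add_cancel, inv_div]
    · change GG m (par w) (x + 1 - 1) / GG m (par w) (x + 1) = (GG m (par w) (x + 1) / GG m (par w) x)⁻¹
      rw [add_sub_cancel_right, inv_div]

theorem ff_well {m : ℕ} (hm : 0 < m) (w : W) (x : Z3 m)
    (h : (x - pl m (par w)).val = m ∨ (x - pl m (par w)).val = 2 * m) : ff m w x = (TT m)⁻¹ := by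
  have : NeZero (3 * m) := ⟨by omega⟩
  obtain ⟨c, hc, hx⟩ : ∃ c : Fin 3, c ≠ par w ∧ x = pl m c := by
    rcases h with h | h
    · refine ⟨par w + 1, by simp, ?_⟩
      have h1 := well_val hm (par w + 1) (par w)
      rw [if_neg (by simp), if_pos rfl] at h1
      have h2 := ZMod.val_injective _ (h1.trans h.symm)
      exact (sub_left_injective h2).symm
    · refine ⟨par w + 2, by simp, ?_⟩
      have h1 := well_val hm (par w + 2) (par w)
      rw [if_neg (by simp), if_neg (by simp)] at h1
      have h2 := ZMod.val_injective _ (h1.trans h.symm)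
      exact (sub_left_injective h2).symm
  unfold ff
  rw [hx, show col m (pl m c) = some c from col_well hm c]
  simp only
  rw [if_neg]
  intro h1
  apply hc
  unfold par
  rw [h1]
  rfl

theorem ff_else {m : ℕ} (hm : 0 < m) (w : W) (x : Z3 m) (h0 : (x - pl m (par w)).val ≠ 0)
    (h : ¬ ((x - pl m (par w)).val = m ∨ (x - pl m (par w)).val = 2 * m)) : ff m w x = 1 := by
  unfold ff
  cases hc : col m x with
  | none => rfl
  | some c =>
    exfalso
    have h1 := well_val hm c (par w)
    rw [← col_some hc] at h1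
    split_ifs at h1
    · exact h0 h1
    · exact h (Or.inl h1)
    · exact h (Or.inr h1)

theorem s0_sum {m : ℕ} (hm : 0 < m) (y : W × Z3 m) : ∑ i, s0 m i y ≤ KK m := by
  have : NeZero (3 * m) := ⟨by omega⟩
  obtain ⟨w, x⟩ := y
  rw [Fintype.sum_option, Fintype.sum_bool]
  change ff m w x + (GG m (par w) (x + 1) / GG m (par w) x + GG m (par w) (x - 1) / GG m (par w) x) ≤ KK m
  rw [← add_div]
  have hpos := GG_pos hm (par w) x
  have key : GG m (par w) (x + 1) + GG m (par w) (x - 1) + ff m w x * GG m (par w) x ≤ KK m * GG m (par w) x := by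
    unfold GG
    set z := x - pl m (par w) with hz
    have e1 : x + 1 - pl m (par w) = z + 1 := by rw [hz]; ring
    have e2 : x - 1 - pl m (par w) = z - 1 := by rw [hz]; ring
    rw [e1, e2]
    have hp : gg m (z + 1).val = gg m (z.val + 1) := by
      rcases val_add_one hm z with ⟨_, h⟩ | ⟨h', h⟩
      · rw [h]
      · rw [h, h', gg_end]
    rw [hp]
    rcases val_sub_one hm z with ⟨h', h⟩ | ⟨h', h⟩
    · rw [h]
      by_cases hk : z.val = m ∨ z.val = 2 * m
      · rw [ff_well hm w x hk]
        exact ineq_well hm hk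
      · rw [ff_else hm w x h'.ne' hk, one_mul]
        exact ineq_else hm h' (ZMod.val_lt z) hk
    · rw [h, h']
      have h1 := ineq_zero hm
      have h2 := mul_le_mul_of_nonneg_right (ff_le hm w x) (gg_pos hm (Nat.zero_le (3 * m))).le
      rw [zero_add]
      linarith
  have h2 : (GG m (par w) (x + 1) + GG m (par w) (x - 1)) / GG m (par w) x ≤ KK m - ff m w x := by
    rw [div_le_iff₀ hpos]
    linarith
  linarith

/-! ### Growth -/

/-- The distance to the place of a colour. -/
def dd (m : ℕ) (p : Fin 3) (x : Z3 m) : ℕ := min (x - pl m p).val (3 * m - (x - pl m p).val)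

/-- A function which grows slowly along the edges. -/
def ht (m : ℕ) (y : W × Z3 m) : ℕ :=
  m * len y.1 + match y.1.1.head? with
    | none => m
    | some p => dd m p y.2

theorem dd_well {m : ℕ} (hm : 0 < m) (c p : Fin 3) : dd m p (pl m c) = if c = p then 0 else m := by
  unfold dd
  rw [well_val hm]
  split_ifs <;> omega

theorem dd_add {m : ℕ} (hm : 0 < m) (p : Fin 3) (x : Z3 m) : dd m p (x + 1) ≤ dd m p x + 1 := by
  unfold dd
  set z := x - pl m p with hz
  have e1 : x + 1 - pl m p = z + 1 := by rw [hz]; ring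
  rw [e1]
  rcases val_add_one hm z with ⟨h', h⟩ | ⟨h', h⟩ <;> rw [h] <;> omega

theorem dd_sub {m : ℕ} (hm : 0 < m) (p : Fin 3) (x : Z3 m) : dd m p (x - 1) ≤ dd m p x + 1 := by
  unfold dd
  set z := x - pl m p with hz
  have e1 : x - 1 - pl m p = z - 1 := by rw [hz]; ring
  rw [e1]
  rcases val_sub_one hm z with ⟨h', h⟩ | ⟨h', h⟩ <;> rw [h] <;> omega

theorem ht_cross {m : ℕ} (hm : 0 < m) (c : Fin 3) (w : W) (h : w.1.head? ≠ some c) :
    ht m (act c w, pl m c) = ht m (w, pl m c) := by
  rcases len_act c w with ⟨h0, h1, h2⟩ | ⟨h0, h1, h2⟩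
  · exact absurd h0 h
  · unfold ht
    simp only
    rw [h1, h2]
    simp only [List.head?_cons]
    rw [dd_well hm c c, if_pos rfl]
    cases hw : w.1.head? with
    | none => simp only; ring
    | some p =>
      simp only
      rw [dd_well hm c p, if_neg]
      · ring
      · rintro rfl
        exact h hw

theorem ht_step {m : ℕ} (hm : 0 < m) (y : W × Z3 m) (i : Option Bool) : ht m ((DD1 m).σ i y) ≤ ht m y + 1 := by
  obtain ⟨w, x⟩ := y
  rcases i with _ | b
  · change ht m (cr m x w, x) ≤ _
    unfold cr
    cases hc : col m x with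
    | none => simp
    | some c =>
      simp only
      rw [col_some hc]
      by_cases h : w.1.head? = some c
      · have h1 : (act c w).1.head? ≠ some c := fun h' => head_act.1 h' h
        have h2 := ht_cross hm c (act c w) h1
        rw [act_act] at h2
        rw [h2]
        omega
      · rw [ht_cross hm c w h]
        omega
  · cases b
    · change ht m (w, x - 1) ≤ _
      unfold ht
      simp only
      cases w.1.head? with
      | none => simp
      | some p =>
        simp only
        have := dd_sub hm p x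
        omega
    · change ht m (w, x + 1) ≤ _
      unfold ht
      simp only
      cases w.1.head? with
      | none => simp
      | some p =>
        simp only
        have := dd_add hm p x
        omega

/-- the number of words -/
theorem words (k : ℕ) : {w : W | len w ≤ k}.Finite ∧ {w : W | len w ≤ k}.ncard ≤ 4 ^ k := by
  have hinj : Set.InjOn (fun (w : W) (i : Fin k) => w.1[(i : ℕ)]?) {w : W | len w ≤ k} := by
    intro w hw w' hw' h
    apply Subtype.ext
    apply List.ext_getElem?
    intro i
    rcases Nat.lt_or_ge i k with hi | hi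
    · exact congrFun h ⟨i, hi⟩
    · have h1 : w.1.length ≤ i := le_trans hw hi
      have h2 : w'.1.length ≤ i := le_trans hw' hi
      rw [List.getElem?_eq_none h1, List.getElem?_eq_none h2]
  have hfin : {w : W | len w ≤ k}.Finite := Set.Finite.of_finite_image (Set.toFinite _) hinj
  refine ⟨hfin, ?_⟩
  rw [← Set.InjOn.ncard_image hinj]
  refine (Set.ncard_le_ncard (Set.subset_univ _) (Set.toFinite _)).trans ?_
  rw [Set.ncard_univ, Nat.card_eq_fintype_card]
  simp

theorem nball_card {m : ℕ} (hm : 0 < m) (v : (W × Z3 m) × ℕ) (n : ℕ) :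
    ((C1 m).deco.nball v n).Finite ∧
      ((C1 m).deco.nball v n).ncard ≤ 4 ^ ((ht m v.1 + n) / m) * (3 * m) * (v.2 + n + 1) := by
  have : NeZero (3 * m) := ⟨by omega⟩
  have h1 := nball_deco (desc1 hm) (ht m) (ht_step hm) v n
  set k := (ht m v.1 + n) / m with hk
  obtain ⟨hf, hc⟩ := words k
  set B : Set ((W × Z3 m) × ℕ) := ({w : W | len w ≤ k} ×ˢ (Set.univ : Set (Z3 m))) ×ˢ (Set.Iio (v.2 + n + 1)) with hB
  have hBf : B.Finite := (hf.prod Set.finite_univ).prod (Set.finite_Iio _)
  have hsub : (C1 m).deco.nball v n ⊆ B := by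
    intro y hy
    obtain ⟨h2, h3⟩ := h1 hy
    refine ⟨⟨?_, Set.mem_univ _⟩, ?_⟩
    · change len y.1.1 ≤ k
      rw [hk, Nat.le_div_iff_mul_le hm]
      refine le_trans ?_ h2
      unfold ht
      rw [mul_comm]
      exact Nat.le_add_right _ _
    · change y.2 < _
      omega
  refine ⟨hBf.subset hsub, (Set.ncard_le_ncard hsub hBf).trans ?_⟩
  rw [hB, Set.ncard_prod, Set.ncard_prod, Set.ncard_univ, Nat.card_eq_fintype_card, ZMod.card]
  have h4 : (Set.Iio (v.2 + n + 1)).ncard = v.2 + n + 1 := by
    rw [← Finset.coe_range, Set.ncard_coe_finset, Finset.card_range]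
  rw [h4]
  exact Nat.mul_le_mul_right _ (Nat.mul_le_mul_right _ hc)

end Pool.Agent.H70.SG
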