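import Pool.Agent.H70.SG.Spec
import Pool.Agent.H70.SG.Wt2

set_option autoImplicit false

/-! Norms and uniform growth. -/

namespace Pool.Agent.H70.SG

open Filter Topology Pool.Agent.H751R3 Pool.Agent.H751R3.Dart

/-- The norm of a symmetric operator is bounded by its numerical radius. -/
theorem norm_le_of_symm {E : Type*} [NormedAddCommGroup E] [InnerProductSpace ℂ E]
    (T : E →L[ℂ] E) (hs : ∀ x y, inner ℂ (T x) y = inner ℂ x (T y)) {M : ℝ} (hM : 0 ≤ M)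
    (h : ∀ f, ‖inner ℂ f (T f)‖ ≤ M * ‖f‖ ^ 2) : ‖T‖ ≤ M := by
  refine T.opNorm_le_bound hM fun x => ?_
  rcases (norm_nonneg (T x)).eq_or_lt with h0 | h0
  · rw [← h0]
    positivity
  rcases (norm_nonneg x).eq_or_lt with hx | hx
  · have : x = 0 := norm_eq_zero.1 hx.symm
    rw [this]
    simp
  set t : ℝ := ‖x‖ / ‖T x‖ with ht
  have ht0 : 0 < t := div_pos hx h0
  set y : E := (t : ℂ) • T x with hy
  have e1 : inner ℂ (x + y) (T (x + y)) - inner ℂ (x - y) (T (x - y)) =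
      2 * (inner ℂ x (T y) + inner ℂ y (T x)) := by
    rw [map_add, map_sub, inner_add_left, inner_add_right, inner_add_right, inner_sub_left,
      inner_sub_right, inner_sub_right]
    ring
  have e2 : inner ℂ x (T y) = ((t * ‖T x‖ ^ 2 : ℝ) : ℂ) := by
    rw [← hs, hy, inner_smul_right, inner_self_eq_norm_sq_to_K]
    push_cast
    rfl
  have e3 : inner ℂ y (T x) = ((t * ‖T x‖ ^ 2 : ℝ) : ℂ) := by
    rw [hy, inner_smul_left, inner_self_eq_norm_sq_to_K, Complex.conj_ofReal]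
    push_cast
    rfl
  have e4 : ‖inner ℂ (x + y) (T (x + y)) - inner ℂ (x - y) (T (x - y))‖ =
      4 * (t * ‖T x‖ ^ 2) := by
    rw [e1, e2, e3]
    have : (2 * (((t * ‖T x‖ ^ 2 : ℝ) : ℂ) + ((t * ‖T x‖ ^ 2 : ℝ) : ℂ))) =
        ((4 * (t * ‖T x‖ ^ 2) : ℝ) : ℂ) := by
      push_cast
      ring
    rw [this, Complex.norm_real, Real.norm_of_nonneg (by positivity)]
  have e5 : ‖inner ℂ (x + y) (T (x + y)) - inner ℂ (x - y) (T (x - y))‖ ≤
      M * ‖x + y‖ ^ 2 + M * ‖x - y‖ ^ 2 :=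
    (norm_sub_le _ _).trans (add_le_add (h _) (h _))
  have e6 : ‖x + y‖ ^ 2 + ‖x - y‖ ^ 2 = 2 * (‖x‖ ^ 2 + ‖y‖ ^ 2) :=
    parallelogram_law_with_norm ℂ x y
  have e7 : ‖y‖ = ‖x‖ := by
    rw [hy, norm_smul, Complex.norm_real, Real.norm_of_nonneg ht0.le, ht,
      div_mul_cancel₀ _ h0.ne']
  rw [e4] at e5
  rw [e7] at e6
  have e8 : t * ‖T x‖ = ‖x‖ := by rw [ht, div_mul_cancel₀ _ h0.ne']
  have e9 : 4 * (‖x‖ * ‖T x‖) ≤ 4 * (M * ‖x‖ ^ 2) := by
    calc 4 * (‖x‖ * ‖T x‖) = 4 * (t * ‖T x‖ ^ 2) := by rw [← e8]; ring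
      _ ≤ M * ‖x + y‖ ^ 2 + M * ‖x - y‖ ^ 2 := e5
      _ = M * (‖x + y‖ ^ 2 + ‖x - y‖ ^ 2) := by ring
      _ = 4 * (M * ‖x‖ ^ 2) := by rw [e6]; ring
  have e10 : ‖x‖ * ‖T x‖ ≤ ‖x‖ * (M * ‖x‖) := by nlinarith
  exact le_of_mul_le_mul_left e10 hx

theorem norm_deco {Y ι : Type} [Fintype ι] (D : Da Y ι) (s : ι → Y → ℝ) (hs0 : ∀ i y, 0 < s i y)
    (hs1 : ∀ i y, s (D.rev i) (D.σ i y) = (s i y)⁻¹) {κ : ℝ} (hκ : 0 < κ) (hsum : ∀ y, ∑ i, s i y ≤ κ) :
    ‖D.sys.op‖ ≤ κ + κ⁻¹ :=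
  norm_le_of_symm _ D.sys.symm (by positivity) (schur_deco D s hs0 hs1 hκ hsum)

theorem notMem_of_norm {V : Type} (H : Op V) {lam : ℂ} (h : ‖H‖ < ‖lam‖) : lam ∉ spec H := by
  intro h3
  have h4 := spectrum.norm_le_norm_mul_of_mem ((mem_spec_iff _ _).1 h3)
  have h5 : ‖(1 : Op V)‖ ≤ 1 := ContinuousLinearMap.norm_id_le
  have h6 : ‖H‖ * ‖(1 : Op V)‖ ≤ ‖H‖ * 1 := mul_le_mul_of_nonneg_left h5 (norm_nonneg _)
  linarith

variable {Y E ι : Type}

theorem nball_deco' {Γ : Gr Y E} {D : Da Y ι} {ed : Y → ι → E} (h : Describes Γ D ed) (f : Y → ℕ)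
    (hf : ∀ y i, f (D.σ i y) ≤ f y + 1) (v : Y × ℕ) (n : ℕ) :
    Γ.deco.nball v n ⊆ {w | w.1 = v.1 ∧ v.2 ≤ w.2 + n ∧ w.2 ≤ v.2 + n} ∪ {w | f w.1 ≤ f v.1 + n ∧ w.2 ≤ n} := by
  induction n with
  | zero =>
    intro w hw
    have hw' : w = v := hw
    subst hw'
    exact Or.inl ⟨rfl, le_rfl, le_rfl⟩
  | succ n ih =>
    rintro w (hw | ⟨u, hu, e, he⟩)
    · rcases ih hw with ⟨h1, h2, h3⟩ | ⟨h1, h2⟩
      · exact Or.inl ⟨h1, by omega, by omega⟩
      · exact Or.inr ⟨by omega, by omega⟩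
    · obtain ⟨i, hi, rfl⟩ := h.adj he
      rcases i with i | b
      · right
        have h3 := hf u.1 i
        have h4 : u.2 = 0 := hi
        refine ⟨?_, by change u.2 ≤ _; omega⟩
        change f (D.σ i u.1) ≤ _
        rcases ih hu with ⟨h1, h2, _⟩ | ⟨h1, h2⟩
        · rw [h1] at h3 ⊢
          omega
        · omega
      · rcases ih hu with ⟨h1, h2, h5⟩ | ⟨h1, h2⟩
        · left
          cases b
          · exact ⟨h1, by change v.2 ≤ u.2 - 1 + _; omega, by change u.2 - 1 ≤ _; omega⟩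
          · exact ⟨h1, by change v.2 ≤ u.2 + 1 + _; omega, by change u.2 + 1 ≤ _; omega⟩
        · right
          cases b
          · exact ⟨by change f u.1 ≤ _; omega, by change u.2 - 1 ≤ _; omega⟩
          · exact ⟨by change f u.1 ≤ _; omega, by change u.2 + 1 ≤ _; omega⟩

theorem nball_deco_card {Γ : Gr Y E} {D : Da Y ι} {ed : Y → ι → E} (h : Describes Γ D ed) (f : Y → ℕ)
    (hf : ∀ y i, f (D.σ i y) ≤ f y + 1) (v : Y × ℕ) (n K : ℕ) (hfin : {y | f y ≤ f v.1 + n}.Finite)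
    (hK : {y | f y ≤ f v.1 + n}.ncard ≤ K) :
    (Γ.deco.nball v n).Finite ∧ (Γ.deco.nball v n).ncard ≤ (2 * n + 1) + K * (n + 1) := by
  have hsub := nball_deco' h f hf v n
  set A : Set (Y × ℕ) := {v.1} ×ˢ Set.Icc (v.2 - n) (v.2 + n) with hA
  set B : Set (Y × ℕ) := {y | f y ≤ f v.1 + n} ×ˢ Set.Iic n with hB
  have hAf : A.Finite := (Set.finite_singleton _).prod (Set.finite_Icc _ _)
  have hBf : B.Finite := hfin.prod (Set.finite_Iic _)
  have hsub' : Γ.deco.nball v n ⊆ A ∪ B := by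
    intro w hw
    rcases hsub hw with ⟨h1, h2, h3⟩ | ⟨h1, h2⟩
    · left
      exact ⟨h1, ⟨by omega, h3⟩⟩
    · right
      exact ⟨h1, h2⟩
  refine ⟨(hAf.union hBf).subset hsub', (Set.ncard_le_ncard hsub' (hAf.union hBf)).trans ?_⟩
  refine (Set.ncard_union_le _ _).trans (Nat.add_le_add ?_ ?_)
  · rw [hA, Set.ncard_prod, Set.ncard_singleton, one_mul, ← Finset.coe_Icc, Set.ncard_coe_finset, Nat.card_Icc]
    omega
  · rw [hB, Set.ncard_prod]
    refine Nat.mul_le_mul hK ?_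
    rw [← Finset.coe_Iic, Set.ncard_coe_finset, Nat.card_Iic]

/-- **Growth of the covering, uniformly in the vertex.** -/
theorem growth1 {m : ℕ} (hm : 0 < m) (v : (W × Z3 m) × ℕ) (n : ℕ) :
    ((C1 m).deco.nball v n).Finite ∧ ((C1 m).deco.nball v n).ncard ≤ 14 * m * (n + 1) * 4 ^ (n / m) := by
  have : NeZero (3 * m) := ⟨by omega⟩
  obtain ⟨⟨w₀, x₀⟩, j₀⟩ := v
  obtain ⟨e, he⟩ := exists_equiv w₀
  have hee : e.symm w₀ = e0 := by
    rw [Equiv.symm_apply_eq, he, tr_e0]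
  have heq : ∀ c w, e.symm (act c w) = act c (e.symm w) := by
    intro c w
    rw [Equiv.symm_apply_eq, he, tr_act, ← he, Equiv.apply_symm_apply]
  have hcr : ∀ (x : Z3 m) (w : W), e.symm (cr m x w) = cr m x (e.symm w) := by
    intro x w
    unfold cr
    cases col m x with
    | none => rfl
    | some c => exact heq c w
  set f : W × Z3 m → ℕ := fun y => ht m (e.symm y.1, y.2) with hf
  have hstep : ∀ y i, f ((DD1 m).σ i y) ≤ f y + 1 := by
    rintro ⟨w, x⟩ i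
    have h1 := ht_step hm (e.symm w, x) i
    have h2 : f ((DD1 m).σ i (w, x)) = ht m ((DD1 m).σ i (e.symm w, x)) := by
      rcases i with _ | b
      · change ht m (e.symm (cr m x w), x) = ht m (cr m x (e.symm w), x)
        rw [hcr]
      · cases b <;> rfl
    rw [h2]
    exact h1
  have hf0 : f (w₀, x₀) = m := by
    rw [hf]
    simp only
    rw [hee]
    simp [ht, len, e0]
  have hsub : {y | f y ≤ f (w₀, x₀) + n} ⊆ (e '' {w : W | len w ≤ (m + n) / m}) ×ˢ (Set.univ : Set (Z3 m)) := by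
    rintro ⟨w, x⟩ hy
    refine ⟨⟨e.symm w, ?_, e.apply_symm_apply w⟩, Set.mem_univ _⟩
    have h1 : ht m (e.symm w, x) ≤ m + n := by
      have : f (w, x) ≤ f (w₀, x₀) + n := hy
      rwa [hf0] at this
    change len (e.symm w) ≤ (m + n) / m
    rw [Nat.le_div_iff_mul_le hm]
    refine le_trans ?_ h1
    unfold ht
    rw [mul_comm]
    exact Nat.le_add_right _ _
  obtain ⟨hw1, hw2⟩ := words ((m + n) / m)
  have hfin' : ((e '' {w : W | len w ≤ (m + n) / m}) ×ˢ (Set.univ : Set (Z3 m))).Finite :=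
    (hw1.image _).prod Set.finite_univ
  have hcard : {y | f y ≤ f (w₀, x₀) + n}.ncard ≤ 4 ^ ((m + n) / m) * (3 * m) := by
    refine (Set.ncard_le_ncard hsub hfin').trans ?_
    rw [Set.ncard_prod, Set.ncard_univ, Nat.card_eq_fintype_card, ZMod.card]
    exact Nat.mul_le_mul_right _ ((Set.ncard_image_le hw1).trans hw2)
  obtain ⟨h1, h2⟩ := nball_deco_card (desc1 hm) f hstep ((w₀, x₀), j₀) n _ (hfin'.subset hsub) hcard
  refine ⟨h1, h2.trans ?_⟩
  have h3 : (m + n) / m = n / m + 1 := by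
    rw [Nat.add_div_left _ hm]
  rw [h3, pow_succ]
  have h4 : 1 ≤ 4 ^ (n / m) := Nat.one_le_pow _ _ (by norm_num)
  have h5 : 2 * n + 1 ≤ 2 * m * (n + 1) * 4 ^ (n / m) := by
    calc 2 * n + 1 ≤ 2 * (n + 1) := by omega
      _ = 2 * 1 * (n + 1) * 1 := by ring
      _ ≤ 2 * m * (n + 1) * 4 ^ (n / m) := by gcongr; exact hm
  calc 2 * n + 1 + 4 ^ (n / m) * 4 * (3 * m) * (n + 1)
      ≤ 2 * m * (n + 1) * 4 ^ (n / m) + 4 ^ (n / m) * 4 * (3 * m) * (n + 1) := by omega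
    _ = 14 * m * (n + 1) * 4 ^ (n / m) := by ring

/-- linear growth of the quotient -/
theorem growth2 {m : ℕ} (hm : 0 < m) (v : Z3 m × ℕ) (n : ℕ) :
    ((C2 m).deco.nball v n).Finite ∧ ((C2 m).deco.nball v n).ncard ≤ 5 * m * (n + 1) := by
  have : NeZero (3 * m) := ⟨by omega⟩
  obtain ⟨h1, h2⟩ := nball_deco_card (desc2 hm) (fun _ => 0) (fun _ _ => by omega) v n (3 * m) (Set.toFinite _) (by
    refine (Set.ncard_le_ncard (Set.subset_univ _) (Set.toFinite _)).trans ?_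
    rw [Set.ncard_univ, Nat.card_eq_fintype_card, ZMod.card])
  refine ⟨h1, h2.trans ?_⟩
  nlinarith

theorem norm1 {m : ℕ} (hm : 0 < m) : ‖(DD1 m).sys.op‖ ≤ 10 / 3 - 1 / (1100 * (m : ℝ) ^ 2) := by
  have hK := KK_lt hm
  refine (norm_deco (DD1 m) (s0 m) (s0_pos hm) s0_inv (by linarith) (s0_sum hm)).trans ?_
  have hm' : (1 : ℝ) ≤ m := by exact_mod_cast hm
  set q : ℝ := 1 / (900 * (m : ℝ) ^ 2) with hq
  have hq0 : 0 < q := by positivity
  have hq1 : q ≤ 1 / 900 := by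
    rw [hq]
    exact one_div_le_one_div_of_le (by norm_num) (by nlinarith)
  have hKK : KK m = 3 - q := by
    unfold KK
    rw [hq]
    ring
  have h1 : 1 / (1100 * (m : ℝ) ^ 2) = 9 / 11 * q := by
    rw [hq]
    field_simp
    norm_num
  rw [hKK, h1]
  have h0 : 0 < 3 - q := by linarith
  have h2 : (3 - q)⁻¹ ≤ 1 / 3 + 2 / 11 * q := by
    rw [inv_le_iff_one_le_mul₀ h0]
    nlinarith
  linarith

end Pool.Agent.H70.SG
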