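import Pool.Agent.H70.SG.Deco

set_option autoImplicit false

/-! The spectra of decorated graphs. -/

namespace Pool.Agent.H70.SG

open Filter Topology Pool.Agent.H751R3.Dart

variable {Y ι : Type} [Fintype ι]

/-- The weights of the Schur test. -/
noncomputable def swt (s : ι → Y → ℝ) (κ : ℝ) : ι ⊕ Bool → Y × ℕ → ℝ
  | Sum.inl i => fun v => s i v.1
  | Sum.inr true => fun _ => κ⁻¹
  | Sum.inr false => fun _ => κ

theorem schur_deco (D : Da Y ι) (s : ι → Y → ℝ) (hs0 : ∀ i y, 0 < s i y)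
    (hs1 : ∀ i y, s (D.rev i) (D.σ i y) = (s i y)⁻¹) {κ : ℝ} (hκ : 0 < κ) (hsum : ∀ y, ∑ i, s i y ≤ κ)
    (f : L2 (Y × ℕ)) : ‖inner ℂ f (D.sys.op f)‖ ≤ (κ + κ⁻¹) * ‖f‖ ^ 2 := by
  refine D.sys.schur (swt s κ) ?_ ?_ ?_ f
  · rintro (c | b) v _
    · exact hs0 c v.1
    · cases b
      · exact hκ
      · exact inv_pos.2 hκ
  · rintro (c | b) ⟨w, n⟩ _
    · exact hs1 c w
    · cases b
      · rfl
      · change κ = (κ⁻¹)⁻¹
        rw [inv_inv]
  · rintro ⟨w, n⟩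
    rw [Fintype.sum_sum_type]
    simp only [Fintype.sum_bool]
    cases n with
    | zero =>
      have h1 : ∀ i : ι, (D.sys.S (Sum.inl i)).indicator (swt s κ (Sum.inl i)) (w, 0) = s i w := by
        intro i
        rw [Set.indicator_of_mem (show (w, 0) ∈ D.sys.S (Sum.inl i) from rfl)]
        rfl
      have h2 : (D.sys.S (Sum.inr true)).indicator (swt s κ (Sum.inr true)) (w, 0) = κ⁻¹ := by
        rw [Set.indicator_of_mem (show (w, 0) ∈ D.sys.S (Sum.inr true) from trivial)]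
        rfl
      have h3 : (D.sys.S (Sum.inr false)).indicator (swt s κ (Sum.inr false)) (w, 0) = 0 := by
        rw [Set.indicator_of_notMem]
        intro h
        exact h rfl
      rw [Finset.sum_congr rfl fun i _ => h1 i, h2, h3]
      linarith [hsum w]
    | succ n =>
      have h1 : ∀ i : ι, (D.sys.S (Sum.inl i)).indicator (swt s κ (Sum.inl i)) (w, n + 1) = 0 := by
        intro i
        rw [Set.indicator_of_notMem]
        intro h
        exact Nat.succ_ne_zero n h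
      have h2 : (D.sys.S (Sum.inr true)).indicator (swt s κ (Sum.inr true)) (w, n + 1) = κ⁻¹ := by
        rw [Set.indicator_of_mem (show (w, n + 1) ∈ D.sys.S (Sum.inr true) from trivial)]
        rfl
      have h3 : (D.sys.S (Sum.inr false)).indicator (swt s κ (Sum.inr false)) (w, n + 1) = κ := by
        rw [Set.indicator_of_mem (show (w, n + 1) ∈ D.sys.S (Sum.inr false) from Nat.succ_ne_zero n)]
        rfl
      rw [Finset.sum_congr rfl fun i _ => h1 i, h2, h3]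
      simp only [Finset.sum_const_zero]
      linarith

theorem notMem_deco (D : Da Y ι) (s : ι → Y → ℝ) (hs0 : ∀ i y, 0 < s i y)
    (hs1 : ∀ i y, s (D.rev i) (D.σ i y) = (s i y)⁻¹) {κ : ℝ} (hκ : 0 < κ) (hsum : ∀ y, ∑ i, s i y ≤ κ)
    {lam : ℝ} (hlam : κ + κ⁻¹ < lam) : (lam : ℂ) ∉ spectrum ℂ D.sys.op := by
  have hsch := schur_deco D s hs0 hs1 hκ hsum
  have hl0 : 0 < lam := by
    have : 0 < κ⁻¹ := inv_pos.2 hκ
    linarith
  rw [spectrum.mem_iff, not_not]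
  refine isUnit_of_bdd_below _ ?_ (c := lam - (κ + κ⁻¹)) (by linarith) ?_
  · intro x y
    simp only [Algebra.algebraMap_eq_smul_one, sub_apply, smul_apply,
      one_apply_eq_self, inner_sub_left, inner_sub_right, D.sys.symm,
      inner_smul_left, inner_smul_right]
    congr 2
    exact Complex.conj_ofReal lam
  · intro f
    set T := algebraMap ℂ (L2 (Y × ℕ) →L[ℂ] L2 (Y × ℕ)) (lam : ℂ) - D.sys.op with hT
    have h1 : inner ℂ f (T f) = (lam : ℂ) * (‖f‖ : ℂ) ^ 2 - inner ℂ f (D.sys.op f) := by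
      rw [hT]
      simp only [Algebra.algebraMap_eq_smul_one, sub_apply, smul_apply,
        one_apply_eq_self, inner_sub_right, inner_smul_right]
      rw [inner_self_eq_norm_sq_to_K]
      rfl
    have h2 : lam * ‖f‖ ^ 2 ≤ ‖inner ℂ f (T f)‖ + ‖inner ℂ f (D.sys.op f)‖ := by
      have h3 : (lam : ℂ) * (‖f‖ : ℂ) ^ 2 = inner ℂ f (T f) + inner ℂ f (D.sys.op f) := by
        rw [h1]; ring
      have h4 : ‖(lam : ℂ) * (‖f‖ : ℂ) ^ 2‖ = lam * ‖f‖ ^ 2 := by
        rw [norm_mul, norm_pow, Complex.norm_real, Complex.norm_real, norm_norm, Real.norm_of_nonneg hl0.le]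
      rw [← h4, h3]
      exact norm_add_le _ _
    have h3 := hsch f
    have h4 : ‖inner ℂ f (T f)‖ ≤ ‖f‖ * ‖T f‖ := norm_inner_le_norm _ _
    have h5 : (lam - (κ + κ⁻¹)) * ‖f‖ ^ 2 ≤ ‖f‖ * ‖T f‖ := by linarith
    rcases (norm_nonneg f).eq_or_lt with h6 | h6
    · rw [← h6]; simp
    · have h7 : ‖f‖ * ((lam - (κ + κ⁻¹)) * ‖f‖) ≤ ‖f‖ * ‖T f‖ := by
        calc ‖f‖ * ((lam - (κ + κ⁻¹)) * ‖f‖) = (lam - (κ + κ⁻¹)) * ‖f‖ ^ 2 := by ring
          _ ≤ _ := h5
      exact le_of_mul_le_mul_left h7 h6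

/-- a finite regular graph with half lines -/
theorem mem_deco [Finite Y] [Nonempty Y] (D : Da Y ι) (d : ℕ) (hd : d = Fintype.card ι) (hd1 : 1 < d) :
    ((d : ℂ) + (d : ℂ)⁻¹) ∈ spectrum ℂ D.sys.op := by
  have := Fintype.ofFinite Y
  have hd0 : (0 : ℝ) < d := by
    have : 0 < d := by omega
    exact_mod_cast this
  have hdc : (d : ℂ) ≠ 0 := by exact_mod_cast hd0.ne'
  have hsum : Summable fun v : Y × ℕ => ‖((d : ℂ)⁻¹) ^ v.2‖ ^ 2 := by
    have h1 : ∀ v : Y × ℕ, ‖((d : ℂ)⁻¹) ^ v.2‖ ^ 2 = (1 : ℝ) * (((d : ℝ)⁻¹) ^ 2) ^ v.2 := by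
      intro v
      rw [norm_pow, ← pow_mul, mul_comm v.2 2, pow_mul, norm_inv, Complex.norm_natCast, one_mul]
    simp only [h1]
    have hg : Summable fun n : ℕ => (((d : ℝ)⁻¹) ^ 2) ^ n := by
      refine summable_geometric_of_lt_one (by positivity) ?_
      have h2 : (d : ℝ)⁻¹ < 1 := inv_lt_one_of_one_lt₀ (by exact_mod_cast hd1)
      have h3 : 0 < (d : ℝ)⁻¹ := inv_pos.2 hd0
      nlinarith
    exact Summable.mul_of_nonneg (Summable.of_finite (f := fun _ : Y => (1 : ℝ))) hg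
      (fun _ => zero_le_one) (fun n => by positivity)
  set g : L2 (Y × ℕ) := ⟨fun v => ((d : ℂ)⁻¹) ^ v.2, mem_of_summable _ hsum⟩ with hg
  have hgn : ∀ v, g v = ((d : ℂ)⁻¹) ^ v.2 := fun v => rfl
  have hne : g ≠ 0 := by
    intro h
    obtain ⟨y⟩ := (inferInstance : Nonempty Y)
    have h1 := congrArg (fun f : L2 (Y × ℕ) => f (y, 0)) h
    simp only at h1
    rw [hgn] at h1
    simp at h1
  have heig : D.sys.op g = ((d : ℂ) + (d : ℂ)⁻¹) • g := by
    ext v
    obtain ⟨y, n⟩ := v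
    rw [D.sys.op_apply]
    change _ = ((d : ℂ) + (d : ℂ)⁻¹) * g (y, n)
    rw [Fintype.sum_sum_type]
    simp only [Fintype.sum_bool]
    cases n with
    | zero =>
      have h1 : ∀ i : ι, cf (D.sys.S (Sum.inl i)) (D.sys.σ (Sum.inl i)) g (y, 0) = 1 := by
        intro i
        unfold cf
        rw [if_pos (show (y, 0) ∈ D.sys.S (Sum.inl i) from rfl), hgn]
        change ((d : ℂ)⁻¹) ^ 0 = 1
        rw [pow_zero]
      have h2 : cf (D.sys.S (Sum.inr true)) (D.sys.σ (Sum.inr true)) g (y, 0) = (d : ℂ)⁻¹ := by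
        unfold cf
        rw [if_pos (show (y, 0) ∈ D.sys.S (Sum.inr true) from trivial), hgn]
        change ((d : ℂ)⁻¹) ^ (0 + 1) = _
        rw [zero_add, pow_one]
      have h3 : cf (D.sys.S (Sum.inr false)) (D.sys.σ (Sum.inr false)) g (y, 0) = 0 := by
        unfold cf
        rw [if_neg]
        intro h
        exact h rfl
      rw [Finset.sum_congr rfl fun i _ => h1 i, h2, h3, hgn, Finset.sum_const, Finset.card_univ, ← hd]
      simp
    | succ n =>
      have h1 : ∀ i : ι, cf (D.sys.S (Sum.inl i)) (D.sys.σ (Sum.inl i)) g (y, n + 1) = 0 := by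
        intro i
        unfold cf
        rw [if_neg]
        intro h
        exact Nat.succ_ne_zero n h
      have h2 : cf (D.sys.S (Sum.inr true)) (D.sys.σ (Sum.inr true)) g (y, n + 1) = ((d : ℂ)⁻¹) ^ (n + 2) := by
        unfold cf
        rw [if_pos (show (y, n + 1) ∈ D.sys.S (Sum.inr true) from trivial), hgn]
        rfl
      have h3 : cf (D.sys.S (Sum.inr false)) (D.sys.σ (Sum.inr false)) g (y, n + 1) = ((d : ℂ)⁻¹) ^ n := by
        unfold cf
        rw [if_pos (show (y, n + 1) ∈ D.sys.S (Sum.inr false) from Nat.succ_ne_zero n), hgn]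
        rfl
      rw [Finset.sum_congr rfl fun i _ => h1 i, h2, h3, hgn]
      simp only [Finset.sum_const_zero]
      have h4 : (d : ℂ) * (d : ℂ)⁻¹ = 1 := mul_inv_cancel₀ hdc
      calc (0 : ℂ) + (((d : ℂ)⁻¹) ^ (n + 2) + ((d : ℂ)⁻¹) ^ n)
          = (d : ℂ)⁻¹ * (d : ℂ)⁻¹ ^ (n + 1) + ((d : ℂ)⁻¹) ^ n * 1 := by ring
        _ = (d : ℂ)⁻¹ * (d : ℂ)⁻¹ ^ (n + 1) + ((d : ℂ)⁻¹) ^ n * ((d : ℂ) * (d : ℂ)⁻¹) := by rw [h4]
        _ = _ := by ring
  rw [spectrum.mem_iff]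
  intro hu
  have h1 : (algebraMap ℂ (L2 (Y × ℕ) →L[ℂ] L2 (Y × ℕ)) ((d : ℂ) + (d : ℂ)⁻¹) - D.sys.op) g = 0 := by
    rw [sub_apply, heig]
    simp [Algebra.algebraMap_eq_smul_one]
  rw [ContinuousLinearMap.isUnit_iff_bijective] at hu
  exact hne (hu.1 (by rw [h1, map_zero]))

end Pool.Agent.H70.SG
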