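import Pool.Agent.H70.SG.Up3

set_option autoImplicit false

/-! Coverings and growth: the quantitative spectral inclusion. -/

namespace Pool.Agent.H70.SG

open Filter Topology Polynomial

variable {V₁ E₁ V₂ E₂ : Type}

theorem nontrivial_H2 (V : Type) [Nonempty V] : Nontrivial (H2 V) := by
  classical
  obtain ⟨v⟩ := (inferInstance : Nonempty V)
  refine ⟨⟨lp.single 2 v (1 : ℂ), 0, fun h0 => ?_⟩⟩
  have h1 := congrArg (fun f : H2 V => f v) h0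
  simp only at h1
  rw [lp.single_apply_self] at h1
  exact one_ne_zero h1

theorem exists_norm_aeval {V : Type} [Nonempty V] {H : Op V} (hH : IsSelfAdjoint H) (p : ℝ[X]) :
    ∃ x : ℝ, (x : ℂ) ∈ spectrum ℂ H ∧ ‖aeval H (p.map (algebraMap ℝ ℂ))‖ = |p.eval x| := by
  have := nontrivial_H2 V
  have hsa := selfAdjoint_aeval hH p
  obtain ⟨z, hz, hzn⟩ := spectrum.exists_nnnorm_eq_spectralRadius (aeval H (p.map (algebraMap ℝ ℂ)))
  rw [hsa.spectralRadius_eq_nnnorm] at hzn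
  have hzn' : ‖z‖ = ‖aeval H (p.map (algebraMap ℝ ℂ))‖ := by
    have : ‖z‖₊ = ‖aeval H (p.map (algebraMap ℝ ℂ))‖₊ := by exact_mod_cast hzn
    exact congrArg NNReal.toReal this
  rw [spectrum.map_polynomial_aeval] at hz
  obtain ⟨w, hw, rfl⟩ := hz
  have hre := hH.mem_spectrum_eq_re hw
  refine ⟨w.re, by rwa [← hre], ?_⟩
  rw [← hzn']
  beta_reduce
  have e : eval w (p.map (algebraMap ℝ ℂ)) = ((p.eval w.re : ℝ) : ℂ) := by
    rw [hre, eval_map_algebraMap, Complex.ofReal_re]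
    exact (aeval_algebraMap_apply_eq_algebraMap_eval (A := ℂ) w.re p)
  rw [e, Complex.norm_real, Real.norm_eq_abs]

theorem eval_le_norm_aeval {V : Type} [Nonempty V] {H : Op V} (p : ℝ[X]) {x : ℝ} (hx : (x : ℂ) ∈ spectrum ℂ H) :
    |p.eval x| ≤ ‖aeval H (p.map (algebraMap ℝ ℂ))‖ := by
  have := nontrivial_H2 V
  have h1 : eval (x : ℂ) (p.map (algebraMap ℝ ℂ)) ∈ spectrum ℂ (aeval H (p.map (algebraMap ℝ ℂ))) := by
    rw [spectrum.map_polynomial_aeval]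
    exact ⟨x, hx, rfl⟩
  have h2 := spectrum.norm_le_norm_of_mem h1
  have e : eval (x : ℂ) (p.map (algebraMap ℝ ℂ)) = ((p.eval x : ℝ) : ℂ) := by
    rw [eval_map_algebraMap]
    exact (aeval_algebraMap_apply_eq_algebraMap_eval (A := ℂ) x p)
  rw [e, Complex.norm_real, Real.norm_eq_abs] at h2
  exact h2

theorem add_inv_mono {x y : ℝ} (hx : 1 ≤ x) (hxy : x ≤ y) : x + x⁻¹ ≤ y + y⁻¹ := by
  have hx0 : 0 < x := by linarith
  have hy0 : 0 < y := by linarith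
  have h1 : y + y⁻¹ - (x + x⁻¹) = (y - x) * (x * y - 1) / (x * y) := by
    field_simp
    ring
  have h2 : 0 ≤ (y - x) * (x * y - 1) / (x * y) := by
    refine div_nonneg (mul_nonneg (by linarith) ?_) (by positivity)
    nlinarith
  linarith

section

variable {Γ₁ : Gr V₁ E₁} {α₁ : V₁ → E₁ → ℂ} {Γ₂ : Gr V₂ E₂} {α₂ : V₂ → E₂ → ℂ} {φ : V₁ → V₂} {ψ : E₁ → E₂}
  {H₁ : Op V₁} {H₂ : Op V₂} {τ : ℝ}

theorem poly_bound_real (h : IsCovering Γ₁ α₁ Γ₂ α₂ φ ψ) (hb₁ : ∀ v, (Γ₁.star v).Finite)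
    (hb₂ : ∀ v, (Γ₂.star v).Finite) (hH₁ : IsLaplaceType Γ₁ α₁ H₁) (hH₂ : IsLaplaceType Γ₂ α₂ H₂)
    (hsa : IsSelfAdjoint H₂) (hτ : 1 ≤ τ)
    (hg : ∀ v, ∃ C : ℝ, ∀ n, (Γ₁.nball v n).Finite ∧ ((Γ₁.nball v n).ncard : ℝ) ≤ C * (τ ^ 2) ^ n) (q : ℝ[X]) {k : ℕ}
    (hk : q.natDegree ≤ k) :
    ‖aeval H₂ (q.map (algebraMap ℝ ℂ))‖ ≤ τ ^ k * ‖aeval H₁ (q.map (algebraMap ℝ ℂ))‖ :=
  poly_bound h hb₁ hb₂ hH₁ hH₂ _ (natDegree_map_le.trans hk) (selfAdjoint_aeval hsa q) hτ hg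

theorem cosh_bound [Nonempty V₁] (h : IsCovering Γ₁ α₁ Γ₂ α₂ φ ψ) (hb₁ : ∀ v, (Γ₁.star v).Finite)
    (hb₂ : ∀ v, (Γ₂.star v).Finite) (hH₁ : IsLaplaceType Γ₁ α₁ H₁) (hH₂ : IsLaplaceType Γ₂ α₂ H₂)
    (hsa₁ : IsSelfAdjoint H₁) (hsa₂ : IsSelfAdjoint H₂) (hτ : 1 ≤ τ)
    (hg : ∀ v, ∃ C : ℝ, ∀ n, (Γ₁.nball v n).Finite ∧ ((Γ₁.nball v n).ncard : ℝ) ≤ C * (τ ^ 2) ^ n) :
    ‖H₂‖ ≤ (τ + τ⁻¹) / 2 * ‖H₁‖ := by
  have hne2 : Nonempty V₂ := (inferInstance : Nonempty V₁).map φ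
  have hτ0 : 0 < τ := by linarith
  rcases (norm_nonneg H₁).eq_or_lt with hr | hr
  · have h1 := poly_bound_real h hb₁ hb₂ hH₁ hH₂ hsa₂ hτ hg X (k := 1) (by simp)
    rw [Polynomial.map_X, aeval_X, aeval_X, ← hr, mul_zero] at h1
    rw [← hr, mul_zero]
    exact h1
  by_contra hcon
  push Not at hcon
  set r : ℝ := ‖H₁‖ with hrdef
  set t : ℝ := ‖H₂‖ / r with ht
  have hc1 : 1 ≤ (τ + τ⁻¹) / 2 := by
    have := add_inv_mono le_rfl hτ
    rw [inv_one] at this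
    linarith
  have htgt : (τ + τ⁻¹) / 2 < t := by
    rw [ht, lt_div_iff₀ hr]
    exact hcon
  have ht1 : 1 < t := lt_of_le_of_lt hc1 htgt
  set z : ℝ := t + Real.sqrt (t ^ 2 - 1) with hz
  have hsq : Real.sqrt (t ^ 2 - 1) ^ 2 = t ^ 2 - 1 := Real.sq_sqrt (by nlinarith)
  have hs0 : 0 ≤ Real.sqrt (t ^ 2 - 1) := Real.sqrt_nonneg _
  have hz1 : 1 ≤ z := by linarith
  have hz0 : 0 < z := by linarith
  have hzinv : z⁻¹ = t - Real.sqrt (t ^ 2 - 1) := by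
    rw [inv_eq_iff_eq_inv, eq_comm, inv_eq_iff_eq_inv, eq_comm]
    rw [eq_comm, ← mul_eq_one_iff_eq_inv₀ hz0.ne', hz]
    nlinarith
  have hzt : (z + z⁻¹) / 2 = t := by
    rw [hzinv, hz]
    ring
  have hzτ : τ < z := by
    by_contra hle
    push Not at hle
    have := add_inv_mono hz1 hle
    linarith
  have key : ∀ j : ℕ, (z / τ) ^ (2 * j) ≤ 2 := by
    intro j
    have h1 := poly_bound_real h hb₁ hb₂ hH₁ hH₂ hsa₂ hτ hg (chp r j) (chp_deg r j)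
    have h2 : ‖aeval H₁ ((chp r j).map (algebraMap ℝ ℂ))‖ ≤ 1 :=
      norm_aeval_le hsa₁ (chp r j) zero_le_one fun x hx => chp_le hr j hx
    have h3 : z ^ (2 * j) / 2 ≤ ‖aeval H₂ ((chp r j).map (algebraMap ℝ ℂ))‖ := by
      refine le_norm_aeval hsa₂ (chp r j) fun x hx => ?_
      refine (chp_big hr j hz1 ?_).trans (le_abs_self _)
      rw [hx, hzt, ht]
      field_simp
    have h4 : z ^ (2 * j) / 2 ≤ τ ^ (2 * j) := by
      refine h3.trans (h1.trans ?_)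
      rw [mul_comm j 2]
      have := mul_le_mul_of_nonneg_left h2 (pow_nonneg hτ0.le (2 * j))
      rwa [mul_one] at this
    rw [div_pow, div_le_iff₀ (pow_pos hτ0 _)]
    linarith
  have hone : 1 < (z / τ) ^ 2 := one_lt_pow₀ (by rwa [one_lt_div hτ0]) two_ne_zero
  obtain ⟨n, hn⟩ := pow_unbounded_of_one_lt 2 hone
  rw [← pow_mul] at hn
  exact absurd (key n) (not_le.2 hn)

theorem near_spectrum [Nonempty V₁] (h : IsCovering Γ₁ α₁ Γ₂ α₂ φ ψ) (hb₁ : ∀ v, (Γ₁.star v).Finite)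
    (hb₂ : ∀ v, (Γ₂.star v).Finite) (hH₁ : IsLaplaceType Γ₁ α₁ H₁) (hH₂ : IsLaplaceType Γ₂ α₂ H₂)
    (hsa₁ : IsSelfAdjoint H₁) (hsa₂ : IsSelfAdjoint H₂) (hτ : 1 ≤ τ)
    (hg : ∀ v, ∃ C : ℝ, ∀ n, (Γ₁.nball v n).Finite ∧ ((Γ₁.nball v n).ncard : ℝ) ≤ C * (τ ^ 2) ^ n) (lam : ℂ)
    (hlam : lam ∈ spec H₂) : ∃ μ ∈ spec H₁, ‖lam - μ‖ ≤ (‖H₁‖ + ‖H₂‖) * Real.sqrt (1 - (τ ^ 2)⁻¹) := by
  have hne2 : Nonempty V₂ := (inferInstance : Nonempty V₁).map φ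
  have nt1 := nontrivial_H2 V₁
  have nt2 := nontrivial_H2 V₂
  rw [mem_spec_iff] at hlam
  have hre := hsa₂.mem_spectrum_eq_re hlam
  set y : ℝ := lam.re with hy
  have hyn : |y| ≤ ‖H₂‖ := by
    have := spectrum.norm_le_norm_of_mem hlam
    rwa [hre, Complex.norm_real, Real.norm_eq_abs] at this
  set L : ℝ := ‖H₁‖ + ‖H₂‖ with hL
  have hτ2 : 1 ≤ τ ^ 2 := by nlinarith
  have hτi : (τ ^ 2)⁻¹ ≤ 1 := inv_le_one_of_one_le₀ hτ2
  have hL0 : 0 ≤ L := by positivity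
  rcases hL0.eq_or_lt with h0 | h0
  · have h1 : ‖H₁‖ = 0 := le_antisymm (by linarith [norm_nonneg H₂]) (norm_nonneg _)
    have h2 : ‖H₂‖ = 0 := le_antisymm (by linarith [norm_nonneg H₁]) (norm_nonneg _)
    obtain ⟨μ, hμ⟩ := spectrum.nonempty H₁
    refine ⟨μ, (mem_spec_iff _ _).2 hμ, ?_⟩
    have h3 := spectrum.norm_le_norm_of_mem hμ
    have h4 := spectrum.norm_le_norm_of_mem hlam
    have h5 := norm_sub_le lam μ
    have h6 : 0 ≤ L * Real.sqrt (1 - (τ ^ 2)⁻¹) := mul_nonneg hL0 (Real.sqrt_nonneg _)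
    linarith
  · set q : ℝ[X] := 1 - C (1 / L ^ 2) * (X - C y) ^ 2 with hq
    have hqe : ∀ x : ℝ, q.eval x = 1 - ((x - y) / L) ^ 2 := by
      intro x
      simp only [hq, eval_sub, eval_mul, eval_C, eval_pow, eval_X, eval_one]
      rw [div_pow]
      ring
    have hqd : q.natDegree ≤ 2 := by
      refine (natDegree_sub_le _ _).trans (max_le (by simp) ?_)
      refine (natDegree_C_mul_le _ _).trans ?_
      refine natDegree_pow_le.trans ?_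
      rw [natDegree_X_sub_C]
    obtain ⟨x, hx, hxn⟩ := exists_norm_aeval hsa₁ q
    refine ⟨x, (mem_spec_iff _ _).2 hx, ?_⟩
    have hxa : |x| ≤ ‖H₁‖ := by
      have := spectrum.norm_le_norm_of_mem hx
      rwa [Complex.norm_real, Real.norm_eq_abs] at this
    have h1 := poly_bound_real h hb₁ hb₂ hH₁ hH₂ hsa₂ hτ hg q hqd
    have h2 := eval_le_norm_aeval q (show ((y : ℝ) : ℂ) ∈ spectrum ℂ H₂ by rwa [← hre])
    rw [hqe, sub_self, zero_div] at h2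
    rw [hxn, hqe] at h1
    have h3 : ((x - y) / L) ^ 2 ≤ 1 := by
      rw [← sq_abs, abs_div, abs_of_pos h0]
      have h4 : |x - y| / L ≤ 1 := by
        rw [div_le_one h0]
        exact (abs_sub _ _).trans (add_le_add hxa hyn)
      have h5 : 0 ≤ |x - y| / L := by positivity
      nlinarith
    rw [abs_of_nonneg (by linarith : 0 ≤ 1 - ((x - y) / L) ^ 2)] at h1
    have h6 : (1 : ℝ) ≤ τ ^ 2 * (1 - ((x - y) / L) ^ 2) := by
      have h7 : |(1 : ℝ) - 0 ^ 2| = 1 := by norm_num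
      rw [h7] at h2
      exact h2.trans h1
    have h8 : ((x - y) / L) ^ 2 ≤ 1 - (τ ^ 2)⁻¹ := by
      have h9 : (τ ^ 2)⁻¹ ≤ 1 - ((x - y) / L) ^ 2 := by
        rw [inv_le_iff_one_le_mul₀ (by positivity)]
        linarith
      linarith
    have h10 : ‖lam - (x : ℂ)‖ = |x - y| := by
      rw [hre, ← Complex.ofReal_sub, Complex.norm_real, Real.norm_eq_abs, abs_sub_comm]
    rw [h10]
    have h11 : |x - y| / L ≤ Real.sqrt (1 - (τ ^ 2)⁻¹) := by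
      refine Real.le_sqrt_of_sq_le ?_
      rw [div_pow, sq_abs, ← div_pow]
      exact h8
    rw [div_le_iff₀ h0] at h11
    linarith

end

end Pool.Agent.H70.SG
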