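import Pool.Agent.H70.SG.Fin
import Pool.Agent.H70.SG.Up4

set_option autoImplicit false

/-! The two-sided estimate for the examples. -/

namespace Pool.Agent.H70.SG

open Filter Topology Pool.Agent.H751R3 Pool.Agent.H751R3.Dart

variable {V E Y ι : Type}

theorem nball_finite {Γ : Gr V E} (hb : ∀ v, (Γ.star v).Finite) (v : V) (n : ℕ) : (Γ.nball v n).Finite := by
  induction n with
  | zero => exact Set.finite_singleton v
  | succ n ih =>
    have h1 : Γ.nball v (n + 1) ⊆ Γ.nball v n ∪ ⋃ u ∈ Γ.nball v n, Γ.other u '' Γ.star u := by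
      rintro w (hw | ⟨u, hu, e, he⟩)
      · exact Or.inl hw
      · right
        rw [Set.mem_iUnion₂]
        refine ⟨u, hu, e, ?_, other_eq Γ he⟩
        change u ∈ Γ.ends e
        rw [he]
        exact Sym2.mem_mk_left _ _
    exact (ih.union (ih.biUnion fun u _ => (hb u).image _)).subset h1

theorem selfAdjoint_sys [Fintype ι] (D : Da Y ι) : IsSelfAdjoint D.sys.op :=
  ContinuousLinearMap.isSelfAdjoint_iff_isSymmetric.2 D.sys.symm

theorem norm2 {m : ℕ} (hm : 0 < m) : ‖(DD2 m).sys.op‖ = 10 / 3 := by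
  have : NeZero (3 * m) := ⟨by omega⟩
  refine le_antisymm ?_ ?_
  · have h := norm_deco (DD2 m) (fun _ _ => 1) (fun _ _ => one_pos) (fun _ _ => by simp) (κ := 3) (by norm_num)
      (fun y => by simp)
    have e : (3 : ℝ) + 3⁻¹ = 10 / 3 := by norm_num
    rwa [e] at h
  · have h := mem_deco (DD2 m) 3 (by simp) (by norm_num)
    have e : (((3 : ℕ) : ℂ) + ((3 : ℕ) : ℂ)⁻¹) = 10 / 3 := by norm_num
    rw [e] at h
    have nt := nontrivial_H2 (Z3 m × ℕ)
    have h2 := spectrum.norm_le_norm_of_mem h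
    have e2 : ‖(10 / 3 : ℂ)‖ = 10 / 3 := by
      rw [norm_div]
      norm_num
    rwa [e2] at h2

theorem lower1 {m : ℕ} (hm : 0 < m) : 10 / 3 - 2 / (m : ℝ) ^ 2 ≤ ‖(DD1 m).sys.op‖ := by
  have : NeZero (3 * m) := ⟨by omega⟩
  have : Nonempty ((W × Z3 m) × ℕ) := ⟨((e0, 0), 0)⟩
  have hm' : (0 : ℝ) < m := by exact_mod_cast hm
  set s : ℝ := Real.log 5 / (2 * m) with hs
  have hlog : Real.log 5 < 2 := by
    rw [Real.log_lt_iff_lt_exp (by norm_num)]
    have h1 := Real.exp_one_gt_d9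
    have h2 : Real.exp 2 = Real.exp 1 * Real.exp 1 := by rw [← Real.exp_add]; norm_num
    rw [h2]
    nlinarith
  have hlog0 : 0 < Real.log 5 := Real.log_pos (by norm_num)
  have hs0 : 0 < s := by positivity
  have hτ : 1 ≤ Real.exp s := Real.one_le_exp hs0.le
  have hb₁ : ∀ v, ((C1 m).deco.star v).Finite := fun v => Set.finite_of_encard_le_coe (k := 4) ((desc1 hm).degree v)
  have hb₂ : ∀ v, ((C2 m).deco.star v).Finite := fun v => Set.finite_of_encard_le_coe (k := 4) ((desc2 hm).degree v)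
  have hg : ∀ v, ∃ C : ℝ, ∀ n, ((C1 m).deco.nball v n).Finite ∧
      (((C1 m).deco.nball v n).ncard : ℝ) ≤ C * (Real.exp s ^ 2) ^ n := by
    intro v
    refine ⟨56 * m ^ 2, fun n => ?_⟩
    obtain ⟨h1, h2⟩ := growth1 hm v n
    refine ⟨h1, ?_⟩
    set k := n / m with hk
    have h3 : ((n : ℝ) + 1) ≤ m * (k + 1) := by
      have h4 : n < m * (k + 1) := by
        rw [hk]
        have := Nat.lt_mul_div_succ n hm
        exact this
      exact_mod_cast (by omega : n + 1 ≤ m * (k + 1))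
    have h5 : ((k : ℝ) + 1) * 4 ^ k ≤ 4 * 5 ^ k := by
      have h6 := one_add_mul_le_pow (show (-2 : ℝ) ≤ 1 / 4 by norm_num) k
      have h7 : (5 : ℝ) ^ k = (1 + 1 / 4) ^ k * 4 ^ k := by
        rw [← mul_pow]
        norm_num
      rw [h7]
      have h8 : (0 : ℝ) < 4 ^ k := by positivity
      have h9 : (k : ℝ) + 1 ≤ 4 * (1 + 1 / 4) ^ k := by
        have : (0 : ℝ) ≤ k := Nat.cast_nonneg k
        linarith
      calc ((k : ℝ) + 1) * 4 ^ k ≤ (4 * (1 + 1 / 4) ^ k) * 4 ^ k := mul_le_mul_of_nonneg_right h9 h8.le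
        _ = _ := by ring
    have h10 : (5 : ℝ) ^ k ≤ (Real.exp s ^ 2) ^ n := by
      have e1 : (5 : ℝ) ^ k = Real.exp (k * Real.log 5) := by
        rw [mul_comm, Real.exp_mul, Real.exp_log (by norm_num), Real.rpow_natCast]
      have e2 : (Real.exp s ^ 2) ^ n = Real.exp (n * (2 * s)) := by
        rw [← Real.exp_nat_mul, ← Real.exp_nat_mul]
        congr 1
      rw [e1, e2]
      refine Real.exp_le_exp.2 ?_
      have h11 : (k : ℝ) * m ≤ n := by
        exact_mod_cast (Nat.div_mul_le_self n m)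
      have e3 : (n : ℝ) * (2 * s) = n / m * Real.log 5 := by
        rw [hs]
        field_simp
      rw [e3]
      refine mul_le_mul_of_nonneg_right ?_ hlog0.le
      rw [le_div_iff₀ hm']
      exact h11
    have h12 : (((C1 m).deco.nball v n).ncard : ℝ) ≤ 14 * m * (n + 1) * 4 ^ k := by exact_mod_cast h2
    calc (((C1 m).deco.nball v n).ncard : ℝ) ≤ 14 * m * (n + 1) * 4 ^ k := h12
      _ ≤ 14 * m * (m * (k + 1)) * 4 ^ k := by gcongr
      _ = 14 * m ^ 2 * (((k : ℝ) + 1) * 4 ^ k) := by ring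
      _ ≤ 14 * m ^ 2 * (4 * 5 ^ k) := by gcongr
      _ = 56 * m ^ 2 * 5 ^ k := by ring
      _ ≤ _ := by gcongr
  have h := cosh_bound (covering_deco (desc1 hm) (desc2 hm) (fun x => ⟨(e0, x), rfl⟩) (psi_surj m) (psi_ends m)
    (psi_ed m)) hb₁ hb₂ (laplace_of_sys _ _ _ (desc1 hm).bij' (desc1 hm).ends')
    (laplace_of_sys _ _ _ (desc2 hm).bij' (desc2 hm).ends') (selfAdjoint_sys (DD1 m)) (selfAdjoint_sys (DD2 m)) hτ hg
  rw [norm2 hm] at h
  have hc : (Real.exp s + (Real.exp s)⁻¹) / 2 = Real.cosh s := by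
    rw [Real.cosh_eq, Real.exp_neg]
  rw [hc] at h
  have h1 : Real.cosh s ≤ Real.exp (s ^ 2 / 2) := Real.cosh_le_exp_half_sq s
  have h2 : Real.exp (-(s ^ 2 / 2)) * (10 / 3) ≤ ‖(DD1 m).sys.op‖ := by
    have h3 : 10 / 3 ≤ Real.exp (s ^ 2 / 2) * ‖(DD1 m).sys.op‖ :=
      h.trans (mul_le_mul_of_nonneg_right h1 (norm_nonneg _))
    have h4 := mul_le_mul_of_nonneg_left h3 (Real.exp_pos (-(s ^ 2 / 2))).le
    rwa [← mul_assoc, ← Real.exp_add, neg_add_cancel, Real.exp_zero, one_mul] at h4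
  have h3 : 1 - s ^ 2 / 2 ≤ Real.exp (-(s ^ 2 / 2)) := by
    have := Real.add_one_le_exp (-(s ^ 2 / 2))
    linarith
  have h4 : s ^ 2 ≤ 1 / (m : ℝ) ^ 2 := by
    have h5 : s ≤ 1 / m := by
      rw [hs, div_le_div_iff₀ (by positivity) hm']
      nlinarith
    calc s ^ 2 ≤ (1 / (m : ℝ)) ^ 2 := pow_le_pow_left₀ hs0.le h5 2
      _ = _ := by rw [div_pow, one_pow]
  have h5 : 2 / (m : ℝ) ^ 2 = 2 * (1 / (m : ℝ) ^ 2) := by ring
  rw [h5]
  nlinarith

end Pool.Agent.H70.SG
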