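import Pool.Agent.H70.SG.Defs

set_option autoImplicit false

/-! The operators on functions, locality, coverings. -/

namespace Pool.Agent.H70.SG

open Filter Topology Polynomial

variable {V E V₁ E₁ V₂ E₂ : Type}

/-- The Laplace type operator on all functions. -/
noncomputable def lapl (Γ : Gr V E) (α : V → E → ℂ) (h : ∀ v, (Γ.star v).Finite) : Module.End ℂ (V → ℂ) where
  toFun f v := ∑ᶠ e ∈ Γ.star v, α v e * f (Γ.other v e)
  map_add' f g := by
    funext v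
    simp only [Pi.add_apply, mul_add]
    exact finsum_mem_add_distrib (h v)
  map_smul' c f := by
    funext v
    simp only [Pi.smul_apply, smul_eq_mul, RingHom.id_apply]
    rw [show c * ∑ᶠ e ∈ Γ.star v, α v e * f (Γ.other v e) = ∑ᶠ e ∈ Γ.star v, c * (α v e * f (Γ.other v e)) from
      mul_finsum_mem _ _]
    exact finsum_mem_congr rfl fun e _ => by ring

theorem star_finite {Γ : Gr V E} {α : V → E → ℂ} (h : UniformlyBounded Γ α) (v : V) : (Γ.star v).Finite := by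
  obtain ⟨⟨D, hD⟩, _⟩ := h
  exact Set.finite_of_encard_le_coe (hD v)

theorem intertwine {A B : Type} [AddCommGroup A] [Module ℂ A] [AddCommGroup B] [Module ℂ B] (S : Module.End ℂ A)
    (T : Module.End ℂ B) (j : A →ₗ[ℂ] B) (h : ∀ a, j (S a) = T (j a)) (p : ℂ[X]) (a : A) :
    j (aeval S p a) = aeval T p (j a) := by
  induction p using Polynomial.induction_on generalizing a with
  | C c => simp [Module.algebraMap_end_apply]
  | add p q hp hq => simp [hp, hq]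
  | monomial n c ih =>
    rw [pow_succ, ← mul_assoc, map_mul (aeval S) (C c * X ^ n) X, map_mul (aeval T) (C c * X ^ n) X, aeval_X, aeval_X]
    change j (aeval S (C c * X ^ n) (S a)) = aeval T (C c * X ^ n) (T (j a))
    rw [ih, h]

/-- The functions in `ℓ²`. -/
noncomputable def jj (V : Type) : H2 V →ₗ[ℂ] (V → ℂ) where
  toFun f := f
  map_add' _ _ := rfl
  map_smul' _ _ := rfl

theorem aeval_clm {V : Type} (H : Op V) (p : ℂ[X]) (f : H2 V) :
    (aeval H p) f = (aeval (H : Module.End ℂ (H2 V)) p) f := by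
  induction p using Polynomial.induction_on generalizing f with
  | C c => simp [Module.algebraMap_end_apply, Algebra.algebraMap_eq_smul_one]
  | add p q hp hq => simp [hp, hq]
  | monomial n c ih =>
    rw [pow_succ, ← mul_assoc, map_mul (aeval H) (C c * X ^ n) X,
      map_mul (aeval (H : Module.End ℂ (H2 V))) (C c * X ^ n) X, aeval_X, aeval_X]
    change (aeval H (C c * X ^ n)) (H f) = (aeval (H : Module.End ℂ (H2 V)) (C c * X ^ n)) (H f)
    rw [ih]

theorem aeval_fun {Γ : Gr V E} {α : V → E → ℂ} {H : Op V} (hb : ∀ v, (Γ.star v).Finite)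
    (hH : IsLaplaceType Γ α H) (p : ℂ[X]) (f : H2 V) : (⇑((aeval H p) f) : V → ℂ) = aeval (lapl Γ α hb) p (⇑f) := by
  rw [aeval_clm]
  exact intertwine (H : Module.End ℂ (H2 V)) (lapl Γ α hb) (jj V) (fun a => by
    funext v
    exact hH a v) p f

theorem other_mem_ball {Γ : Gr V E} {v : V} {e : E} (h : e ∈ Γ.star v) : Γ.ends e = s(v, Γ.other v e) := by
  have hv : v ∈ Γ.ends e := h
  unfold Gr.other
  rw [dif_pos hv]
  exact (Sym2.other_spec hv).symm

theorem ball_mono {Γ : Gr V E} {A B : Set V} (h : A ⊆ B) : Γ.ball A ⊆ Γ.ball B := by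
  rintro w (hw | ⟨v, hv, e, he⟩)
  · exact Or.inl (h hw)
  · exact Or.inr ⟨v, h hv, e, he⟩

theorem nball_step {Γ : Gr V E} {v u : V} (h : u ∈ Γ.ball {v}) (n : ℕ) : Γ.nball u n ⊆ Γ.nball v (n + 1) := by
  induction n with
  | zero =>
    intro w hw
    have : w = u := hw
    subst this
    exact h
  | succ n ih => exact ball_mono ih

theorem nball_mono {Γ : Gr V E} (v : V) {n k : ℕ} (h : n ≤ k) : Γ.nball v n ⊆ Γ.nball v k := by
  induction h with
  | refl => exact subset_rfl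
  | step _ ih => exact ih.trans fun w hw => Or.inl hw

theorem lapl_local {Γ : Gr V E} {α : V → E → ℂ} (hb : ∀ v, (Γ.star v).Finite) (n : ℕ) (v : V) (F G : V → ℂ)
    (h : ∀ w ∈ Γ.nball v n, F w = G w) : ((lapl Γ α hb) ^ n) F v = ((lapl Γ α hb) ^ n) G v := by
  induction n generalizing v with
  | zero => exact h v rfl
  | succ n ih =>
    rw [pow_succ']
    change ∑ᶠ e ∈ Γ.star v, α v e * ((lapl Γ α hb) ^ n) F (Γ.other v e) =
      ∑ᶠ e ∈ Γ.star v, α v e * ((lapl Γ α hb) ^ n) G (Γ.other v e)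
    refine finsum_mem_congr rfl fun e he => ?_
    rw [ih (Γ.other v e) fun w hw => h w ?_]
    exact nball_step (Or.inr ⟨v, rfl, e, other_mem_ball he⟩) n hw

theorem aeval_local {Γ : Gr V E} {α : V → E → ℂ} (hb : ∀ v, (Γ.star v).Finite) (p : ℂ[X]) {N : ℕ}
    (hp : p.natDegree ≤ N) (v : V) (F G : V → ℂ) (h : ∀ w ∈ Γ.nball v N, F w = G w) :
    (aeval (lapl Γ α hb) p) F v = (aeval (lapl Γ α hb) p) G v := by
  rw [aeval_eq_sum_range, LinearMap.sum_apply, LinearMap.sum_apply, Finset.sum_apply, Finset.sum_apply]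
  refine Finset.sum_congr rfl fun i hi => ?_
  rw [Finset.mem_range] at hi
  rw [LinearMap.smul_apply, LinearMap.smul_apply, Pi.smul_apply, Pi.smul_apply]
  rw [lapl_local hb i v F G fun w hw => h w (nball_mono v (by omega) hw)]

/-- pull back -/
def pb (φ : V₁ → V₂) : (V₂ → ℂ) →ₗ[ℂ] (V₁ → ℂ) where
  toFun f := f ∘ φ
  map_add' _ _ := rfl
  map_smul' _ _ := rfl

theorem covering_lapl {Γ₁ : Gr V₁ E₁} {α₁ : V₁ → E₁ → ℂ} {Γ₂ : Gr V₂ E₂} {α₂ : V₂ → E₂ → ℂ} {φ : V₁ → V₂}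
    {ψ : E₁ → E₂} (h : IsCovering Γ₁ α₁ Γ₂ α₂ φ ψ) (hb₁ : ∀ v, (Γ₁.star v).Finite) (hb₂ : ∀ v, (Γ₂.star v).Finite)
    (f : V₂ → ℂ) : pb φ (lapl Γ₂ α₂ hb₂ f) = lapl Γ₁ α₁ hb₁ (pb φ f) := by
  funext v
  change ∑ᶠ e ∈ Γ₂.star (φ v), α₂ (φ v) e * f (Γ₂.other (φ v) e) = ∑ᶠ e ∈ Γ₁.star v, α₁ v e * f (φ (Γ₁.other v e))
  symm
  refine finsum_mem_eq_of_bijOn ψ (h.bij v) fun e he => ?_
  rw [h.weight v e he]
  have h1 : Γ₂.ends (ψ e) = s(φ v, φ (Γ₁.other v e)) := by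
    rw [h.ends, other_mem_ball he]
    rfl
  rw [other_eq Γ₂ h1]

open Classical in
/-- the key estimate -/
theorem diag_bound {Γ₁ : Gr V₁ E₁} {α₁ : V₁ → E₁ → ℂ} {Γ₂ : Gr V₂ E₂} {α₂ : V₂ → E₂ → ℂ} {φ : V₁ → V₂}
    {ψ : E₁ → E₂} (h : IsCovering Γ₁ α₁ Γ₂ α₂ φ ψ) (hb₁ : ∀ v, (Γ₁.star v).Finite) (hb₂ : ∀ v, (Γ₂.star v).Finite)
    {H₁ : Op V₁} {H₂ : Op V₂} (hH₁ : IsLaplaceType Γ₁ α₁ H₁) (hH₂ : IsLaplaceType Γ₂ α₂ H₂) (p : ℂ[X]) {N : ℕ}
    (hp : p.natDegree ≤ N) (v : V₁) (hfin : (Γ₁.nball v N).Finite) :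
    ‖((aeval H₂ p) (lp.single 2 (φ v) (1 : ℂ)) : H2 V₂) (φ v)‖ ≤
      ‖aeval H₁ p‖ * Real.sqrt ((Γ₁.nball v N).ncard) := by
  set S : Finset V₁ := hfin.toFinset.filter (fun w => φ w = φ v) with hS
  set g : H2 V₁ := ∑ w ∈ S, lp.single 2 w (1 : ℂ) with hg
  have hgv : ∀ w, g w = if w ∈ S then 1 else 0 := by
    intro w
    rw [hg, lp.coeFn_sum, Finset.sum_apply]
    have : ∀ u ∈ S, (lp.single 2 u (1 : ℂ) : H2 V₁) w = if w = u then 1 else 0 := by
      intro u _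
      by_cases huw : w = u
      · subst huw
        rw [if_pos rfl]
        exact lp.single_apply_self 2 w 1
      · rw [if_neg huw]
        exact lp.single_apply_ne 2 u 1 huw
    rw [Finset.sum_congr rfl this, Finset.sum_ite_eq]
  have hgn : ‖g‖ = Real.sqrt S.card := by
    have h1 : ‖g‖ ^ 2 = S.card := by
      rw [Pool.Agent.H751R3.Dart.norm_sq_eq']
      have h2 : ∀ w, ‖g w‖ ^ 2 = if w ∈ S then 1 else 0 := by
        intro w
        rw [hgv]
        split_ifs <;> simp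
      rw [tsum_congr h2, tsum_eq_sum (s := S) (fun w hw => if_neg hw), Finset.sum_congr rfl fun w hw => if_pos hw]
      simp
    rw [← h1, Real.sqrt_sq (norm_nonneg _)]
  have e1 : ((aeval H₂ p) (lp.single 2 (φ v) (1 : ℂ)) : H2 V₂) (φ v) = ((aeval H₁ p) g) v := by
    have h1 := congrFun (aeval_fun hb₂ hH₂ p (lp.single 2 (φ v) (1 : ℂ))) (φ v)
    have h2 := congrFun (aeval_fun hb₁ hH₁ p g) v
    rw [h1, h2]
    have h3 := congrFun (intertwine (lapl Γ₂ α₂ hb₂) (lapl Γ₁ α₁ hb₁) (pb φ)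
      (covering_lapl h hb₁ hb₂) p (⇑(lp.single 2 (φ v) (1 : ℂ) : H2 V₂))) v
    refine h3.trans (aeval_local hb₁ p hp v _ _ fun w hw => ?_)
    rw [hgv]
    change (lp.single 2 (φ v) (1 : ℂ) : H2 V₂) (φ w) = _
    by_cases hwv : φ w = φ v
    · rw [if_pos (by rw [hS, Finset.mem_filter]; exact ⟨hfin.mem_toFinset.2 hw, hwv⟩), hwv]
      exact lp.single_apply_self 2 (φ v) 1
    · rw [if_neg (by rw [hS, Finset.mem_filter]; exact fun h => hwv h.2)]
      exact lp.single_apply_ne 2 (φ v) 1 hwv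
  rw [e1]
  have h4 : ‖((aeval H₁ p) g) v‖ ≤ ‖(aeval H₁ p) g‖ := lp.norm_apply_le_norm (by norm_num) _ _
  refine h4.trans (((aeval H₁ p).le_opNorm g).trans ?_)
  rw [hgn]
  refine mul_le_mul_of_nonneg_left (Real.sqrt_le_sqrt ?_) (norm_nonneg _)
  have h5 : S.card ≤ (Γ₁.nball v N).ncard := by
    rw [Set.ncard_eq_toFinset_card _ hfin]
    exact Finset.card_filter_le _ _
  exact_mod_cast h5

end Pool.Agent.H70.SG
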