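import Pool.Agent.H70.SG.Up

set_option autoImplicit false

/-! Growth of the powers of a self-adjoint operator. -/

namespace Pool.Agent.H70.SG

open Filter Topology Polynomial

/-- log-convexity -/
theorem norm_le_of_pow {A : Type} [NormedAddCommGroup A] [InnerProductSpace ℂ A] (B : A →L[ℂ] A)
    (hs : ∀ x y, inner ℂ (B x) y = inner ℂ x (B y)) (u : A) (C ρ : ℝ) (hρ : 0 ≤ ρ)
    (h : ∀ n : ℕ, ‖(B ^ n) u‖ ≤ C * ρ ^ n) : ‖B u‖ ≤ ρ * ‖u‖ := by
  set a : ℕ → ℝ := fun n => ‖(B ^ n) u‖ with ha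
  have hstep : ∀ n, a (n + 1) ^ 2 ≤ a n * a (n + 2) := by
    intro n
    have e1 : (B ^ (n + 1)) u = B ((B ^ n) u) := by
      rw [pow_succ']
      rfl
    have e2 : (B ^ (n + 2)) u = B ((B ^ (n + 1)) u) := by
      rw [pow_succ' B (n + 1)]
      rfl
    have h1 : inner ℂ ((B ^ (n + 1)) u) ((B ^ (n + 1)) u) = inner ℂ ((B ^ n) u) ((B ^ (n + 2)) u) := by
      rw [e2, ← hs]
      rw [← e1]
    have h2 : ‖inner ℂ ((B ^ (n + 1)) u) ((B ^ (n + 1)) u)‖ = a (n + 1) ^ 2 := by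
      rw [inner_self_eq_norm_sq_to_K]
      rw [norm_pow]
      simp [ha]
    rw [← h2, h1]
    exact norm_inner_le_norm _ _
  have h0 : a 0 = ‖u‖ := by simp [ha]
  have h1 : a 1 = ‖B u‖ := by simp [ha]
  rw [← h0, ← h1]
  by_contra hcon
  push Not at hcon
  have ha0 : ∀ n, 0 ≤ a n := fun n => norm_nonneg _
  have hpos0 : 0 < a 0 := by
    rcases (ha0 0).eq_or_lt with h2 | h2
    · exfalso
      have h3 : u = 0 := by
        rw [← norm_eq_zero, ← h0, ← h2]
      rw [h1, h3] at hcon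
      rw [← h2] at hcon
      simp at hcon
    · exact h2
  set q : ℝ := a 1 / a 0 with hq
  have hqρ : ρ < q := by
    rw [hq, lt_div_iff₀ hpos0]
    exact hcon
  have hq0 : 0 < q := lt_of_le_of_lt hρ hqρ
  have key : ∀ n, 0 < a n ∧ q * a n ≤ a (n + 1) := by
    intro n
    induction n with
    | zero =>
      refine ⟨hpos0, ?_⟩
      rw [hq, zero_add]
      rw [div_mul_cancel₀ _ hpos0.ne']
    | succ n ih =>
      obtain ⟨ih1, ih2⟩ := ih
      have h3 : 0 < a (n + 1) := lt_of_lt_of_le (mul_pos hq0 ih1) ih2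
      refine ⟨h3, ?_⟩
      have h4 := hstep n
      have h5 : q * a (n + 1) * a n ≤ a (n + 2) * a n := by
        calc q * a (n + 1) * a n = (q * a n) * a (n + 1) := by ring
          _ ≤ a (n + 1) * a (n + 1) := mul_le_mul_of_nonneg_right ih2 h3.le
          _ = a (n + 1) ^ 2 := by ring
          _ ≤ a n * a (n + 2) := h4
          _ = a (n + 2) * a n := by ring
      exact le_of_mul_le_mul_right h5 ih1
  have hlow : ∀ n, q ^ n * a 0 ≤ a n := by
    intro n
    induction n with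
    | zero => simp
    | succ n ih =>
      calc q ^ (n + 1) * a 0 = q * (q ^ n * a 0) := by ring
        _ ≤ q * a n := mul_le_mul_of_nonneg_left ih hq0.le
        _ ≤ a (n + 1) := (key n).2
  have hC : 0 ≤ C := by
    have := h 0
    simp only [pow_zero, mul_one] at this
    exact (norm_nonneg _).trans this
  rcases hρ.eq_or_lt with h6 | h6
  · have h7 := (hlow 1).trans (h 1)
    rw [← h6] at h7
    simp only [pow_one, mul_zero] at h7
    have := mul_pos hq0 hpos0
    linarith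
  · have h7 : ∀ n : ℕ, (q / ρ) ^ n ≤ C / a 0 := by
      intro n
      rw [div_pow, div_le_div_iff₀ (pow_pos h6 n) hpos0]
      exact (hlow n).trans (h n)
    obtain ⟨n, hn⟩ := pow_unbounded_of_one_lt (C / a 0) (show 1 < q / ρ by rwa [one_lt_div h6])
    exact absurd (h7 n) (not_le.2 hn)

open Classical in
/-- from the basis vectors to all vectors -/
theorem opNorm_le_of_single {V : Type} (B : Op V) (hs : ∀ x y, inner ℂ (B x) y = inner ℂ x (B y)) (ρ : ℝ)
    (hρ : 0 ≤ ρ) (h : ∀ x : V, ∃ C : ℝ, ∀ n : ℕ, ‖(B ^ n) (lp.single 2 x (1 : ℂ))‖ ≤ C * ρ ^ n) : ‖B‖ ≤ ρ := by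
  choose C hC using h
  have hfin : ∀ (f : H2 V) (S : Finset V), ‖B (∑ x ∈ S, lp.single 2 x (f x))‖ ≤ ρ * ‖∑ x ∈ S, lp.single 2 x (f x)‖ := by
    intro f S
    refine norm_le_of_pow B hs _ (∑ x ∈ S, ‖f x‖ * C x) ρ hρ fun n => ?_
    rw [map_sum, Finset.sum_mul]
    refine (norm_sum_le _ _).trans (Finset.sum_le_sum fun x _ => ?_)
    have e : (lp.single 2 x (f x) : H2 V) = f x • lp.single 2 x (1 : ℂ) := by
      rw [← lp.single_smul, smul_eq_mul, mul_one]
    rw [e, map_smul, norm_smul, mul_assoc]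
    exact mul_le_mul_of_nonneg_left (hC x n) (norm_nonneg _)
  refine B.opNorm_le_bound hρ fun f => ?_
  have h1 := lp.hasSum_single (p := 2) (by norm_num) f
  have h2 : Tendsto (fun S : Finset V => ‖B (∑ x ∈ S, lp.single 2 x (f x))‖) atTop (𝓝 ‖B f‖) :=
    ((B.continuous.tendsto f).comp h1).norm
  have h3 : Tendsto (fun S : Finset V => ρ * ‖∑ x ∈ S, lp.single 2 x (f x)‖) atTop (𝓝 (ρ * ‖f‖)) :=
    (Tendsto.norm h1).const_mul ρ
  exact le_of_tendsto_of_tendsto' h2 h3 fun S => hfin f S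

end Pool.Agent.H70.SG
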