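import Pool.Agent.H70.SG.Up2
import Mathlib.Analysis.SpecialFunctions.Trigonometric.Chebyshev.Basic

set_option autoImplicit false

/-! The norms of the operators of a covering and the growth of the covering graph. -/

namespace Pool.Agent.H70.SG

open Filter Topology Polynomial

variable {V₁ E₁ V₂ E₂ : Type}

open Classical in
/-- **Polynomials of the operators of a covering.** -/
theorem poly_bound {Γ₁ : Gr V₁ E₁} {α₁ : V₁ → E₁ → ℂ} {Γ₂ : Gr V₂ E₂} {α₂ : V₂ → E₂ → ℂ} {φ : V₁ → V₂}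
    {ψ : E₁ → E₂} (h : IsCovering Γ₁ α₁ Γ₂ α₂ φ ψ) (hb₁ : ∀ v, (Γ₁.star v).Finite) (hb₂ : ∀ v, (Γ₂.star v).Finite)
    {H₁ : Op V₁} {H₂ : Op V₂} (hH₁ : IsLaplaceType Γ₁ α₁ H₁) (hH₂ : IsLaplaceType Γ₂ α₂ H₂) (q : ℂ[X]) {k : ℕ}
    (hk : q.natDegree ≤ k) (hsa : IsSelfAdjoint (aeval H₂ q)) {τ : ℝ} (hτ : 1 ≤ τ)
    (hg : ∀ v, ∃ C : ℝ, ∀ n, (Γ₁.nball v n).Finite ∧ ((Γ₁.nball v n).ncard : ℝ) ≤ C * (τ ^ 2) ^ n) :
    ‖aeval H₂ q‖ ≤ τ ^ k * ‖aeval H₁ q‖ := by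
  set B : Op V₂ := aeval H₂ q with hB
  set r : ℝ := ‖aeval H₁ q‖ with hr
  have hr0 : 0 ≤ r := norm_nonneg _
  have hτ0 : 0 < τ := by linarith
  have hsym : ∀ x y, inner ℂ (B x) y = inner ℂ x (B y) :=
    ContinuousLinearMap.isSelfAdjoint_iff_isSymmetric.1 hsa
  have hsymn : ∀ n x y, inner ℂ ((B ^ n) x) y = inner ℂ x ((B ^ n) y) := by
    intro n
    exact ContinuousLinearMap.isSelfAdjoint_iff_isSymmetric.1 (hsa.pow n)
  refine opNorm_le_of_single B hsym (τ ^ k * r) (by positivity) fun x => ?_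
  obtain ⟨v, rfl⟩ := h.surj_vert x
  obtain ⟨C, hC⟩ := hg v
  have hC0 : 0 ≤ C := by
    have h1 := (hC 0).2
    rw [pow_zero, mul_one] at h1
    exact (Nat.cast_nonneg _).trans h1
  refine ⟨Real.sqrt (Real.sqrt C), fun n => ?_⟩
  set u : H2 V₂ := lp.single 2 (φ v) (1 : ℂ) with hu
  have e1 : ‖(B ^ n) u‖ ^ 2 = ‖inner ℂ u ((B ^ (2 * n)) u)‖ := by
    have h1 : (B ^ (2 * n)) u = (B ^ n) ((B ^ n) u) := by
      rw [two_mul, pow_add]
      rfl
    rw [h1, ← hsymn, inner_self_eq_norm_sq_to_K, norm_pow]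
    simp
  have e2 : inner ℂ u ((B ^ (2 * n)) u) = ((B ^ (2 * n)) u) (φ v) := by
    rw [hu, lp.inner_single_left]
    simp
  have e3 : B ^ (2 * n) = aeval H₂ (q ^ (2 * n)) := by rw [map_pow]
  have hdeg : (q ^ (2 * n)).natDegree ≤ 2 * n * k := natDegree_pow_le.trans (Nat.mul_le_mul_left _ hk)
  have h2 := diag_bound h hb₁ hb₂ hH₁ hH₂ (q ^ (2 * n)) hdeg v (hC _).1
  have h3 : ‖aeval H₁ (q ^ (2 * n))‖ ≤ r ^ (2 * n) := by
    rw [map_pow]
    rcases Nat.eq_zero_or_pos (2 * n) with h0 | h0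
    · rw [h0, pow_zero, pow_zero]
      exact ContinuousLinearMap.norm_id_le
    · exact norm_pow_le' _ h0
  have h4 : Real.sqrt ((Γ₁.nball v (2 * n * k)).ncard) ≤ Real.sqrt C * τ ^ (2 * n * k) := by
    refine (Real.sqrt_le_sqrt (hC _).2).trans ?_
    rw [Real.sqrt_mul hC0, ← pow_mul, mul_comm 2 (2 * n * k), pow_mul, Real.sqrt_sq (by positivity)]
  have h5 : ‖(B ^ n) u‖ ^ 2 ≤ (Real.sqrt (Real.sqrt C) * (τ ^ k * r) ^ n) ^ 2 := by
    rw [e1, e2, e3]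
    refine h2.trans ((mul_le_mul h3 h4 (Real.sqrt_nonneg _) (by positivity)).trans (le_of_eq ?_))
    rw [mul_pow, Real.sq_sqrt (Real.sqrt_nonneg _), ← pow_mul, mul_pow, ← pow_mul]
    ring
  exact (pow_le_pow_iff_left₀ (norm_nonneg _) (by positivity) two_ne_zero).1 h5

/-- The polynomial `T_j(2 x² / r² - 1)`. -/
noncomputable def chp (r : ℝ) (j : ℕ) : ℝ[X] := (Chebyshev.T ℝ j).comp (C (2 / r ^ 2) * X ^ 2 - 1)

theorem chp_deg (r : ℝ) (j : ℕ) : (chp r j).natDegree ≤ j * 2 := by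
  unfold chp
  refine natDegree_comp_le.trans ?_
  rw [Chebyshev.natDegree_T]
  refine Nat.mul_le_mul (le_of_eq (by simp)) ?_
  refine (natDegree_sub_le _ _).trans (max_le ((natDegree_C_mul_le _ _).trans (natDegree_X_pow_le 2)) ?_)
  simp

theorem chp_eval (r : ℝ) (j : ℕ) (x : ℝ) : (chp r j).eval x = (Chebyshev.T ℝ j).eval (2 * (x / r) ^ 2 - 1) := by
  unfold chp
  rw [eval_comp]
  congr 1
  simp only [eval_sub, eval_mul, eval_C, eval_pow, eval_X, eval_one]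
  rw [div_pow]
  ring

theorem chp_le {r : ℝ} (hr : 0 < r) (j : ℕ) {x : ℝ} (hx : |x| ≤ r) : |(chp r j).eval x| ≤ 1 := by
  rw [chp_eval]
  have h1 : (x / r) ^ 2 ≤ 1 := by
    rw [← sq_abs, abs_div, abs_of_pos hr]
    have : |x| / r ≤ 1 := by rwa [div_le_one hr]
    have h0 : 0 ≤ |x| / r := by positivity
    nlinarith
  have h2 : 0 ≤ (x / r) ^ 2 := sq_nonneg _
  rw [← Real.cos_arccos (by linarith : -1 ≤ 2 * (x / r) ^ 2 - 1) (by linarith), Chebyshev.T_real_cos]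
  exact Real.abs_cos_le_one _

theorem chp_big {r : ℝ} (hr : 0 < r) (j : ℕ) {x z : ℝ} (hz : 1 ≤ z) (hx : |x| = r * ((z + z⁻¹) / 2)) :
    z ^ (2 * j) / 2 ≤ (chp r j).eval x := by
  rw [chp_eval]
  have hz0 : 0 < z := by linarith
  have h1 : 2 * (x / r) ^ 2 - 1 = Real.cosh (Real.log (z ^ 2)) := by
    rw [Real.cosh_log (by positivity), ← sq_abs, abs_div, abs_of_pos hr, hx]
    field_simp
    ring
  rw [h1, Chebyshev.T_real_cosh]
  have h2 : (((j : ℤ) : ℝ)) * Real.log (z ^ 2) = Real.log (z ^ (2 * j)) := by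
    rw [Real.log_pow, Real.log_pow]
    push_cast
    ring
  rw [h2, Real.cosh_log (by positivity)]
  have h3 : 0 < (z ^ (2 * j))⁻¹ := by positivity
  linarith

theorem selfAdjoint_aeval {V : Type} {H : Op V} (hH : IsSelfAdjoint H) (p : ℝ[X]) :
    IsSelfAdjoint (aeval H (p.map (algebraMap ℝ ℂ))) := by
  rw [aeval_eq_sum_range]
  refine sum_mem (S := selfAdjoint (Op V)) fun i _ => ?_
  rw [coeff_map]
  refine IsSelfAdjoint.smul ?_ (hH.pow i)
  rw [isSelfAdjoint_iff]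
  exact Complex.conj_ofReal _

theorem norm_aeval_le {V : Type} [Nonempty V] {H : Op V} (hH : IsSelfAdjoint H) (p : ℝ[X]) {c : ℝ} (_hc : 0 ≤ c)
    (h : ∀ x : ℝ, |x| ≤ ‖H‖ → |p.eval x| ≤ c) : ‖aeval H (p.map (algebraMap ℝ ℂ))‖ ≤ c := by
  classical
  have : Nontrivial (H2 V) := by
    obtain ⟨v⟩ := (inferInstance : Nonempty V)
    refine ⟨⟨lp.single 2 v (1 : ℂ), 0, fun h0 => ?_⟩⟩
    have h1 := congrArg (fun f : H2 V => f v) h0
    simp only at h1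
    rw [lp.single_apply_self] at h1
    exact one_ne_zero h1
  have hsa := selfAdjoint_aeval hH p
  obtain ⟨z, hz, hzn⟩ := spectrum.exists_nnnorm_eq_spectralRadius (aeval H (p.map (algebraMap ℝ ℂ)))
  rw [hsa.spectralRadius_eq_nnnorm] at hzn
  have hzn' : ‖z‖ = ‖aeval H (p.map (algebraMap ℝ ℂ))‖ := by
    have : ‖z‖₊ = ‖aeval H (p.map (algebraMap ℝ ℂ))‖₊ := by exact_mod_cast hzn
    exact congrArg NNReal.toReal this
  rw [spectrum.map_polynomial_aeval] at hz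
  obtain ⟨w, hw, rfl⟩ := hz
  have hre := hH.mem_spectrum_eq_re hw
  rw [← hzn', hre]
  beta_reduce
  have e : eval ((w.re : ℝ) : ℂ) (p.map (algebraMap ℝ ℂ)) = ((p.eval w.re : ℝ) : ℂ) := by
    rw [eval_map_algebraMap]
    exact (aeval_algebraMap_apply_eq_algebraMap_eval (A := ℂ) w.re p)
  rw [e, Complex.norm_real, Real.norm_eq_abs]
  refine h _ ?_
  have h2 := spectrum.norm_le_norm_of_mem hw
  exact (Complex.abs_re_le_norm w).trans h2

theorem le_norm_aeval {V : Type} [Nonempty V] {H : Op V} (hH : IsSelfAdjoint H) (p : ℝ[X]) {c : ℝ}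
    (h : ∀ x : ℝ, |x| = ‖H‖ → c ≤ |p.eval x|) : c ≤ ‖aeval H (p.map (algebraMap ℝ ℂ))‖ := by
  classical
  have : Nontrivial (H2 V) := by
    obtain ⟨v⟩ := (inferInstance : Nonempty V)
    refine ⟨⟨lp.single 2 v (1 : ℂ), 0, fun h0 => ?_⟩⟩
    have h1 := congrArg (fun f : H2 V => f v) h0
    simp only at h1
    rw [lp.single_apply_self] at h1
    exact one_ne_zero h1
  obtain ⟨w, hw, hwn⟩ := spectrum.exists_nnnorm_eq_spectralRadius H
  rw [hH.spectralRadius_eq_nnnorm] at hwn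
  have hwn' : ‖w‖ = ‖H‖ := by
    have : ‖w‖₊ = ‖H‖₊ := by exact_mod_cast hwn
    exact congrArg NNReal.toReal this
  have hre := hH.mem_spectrum_eq_re hw
  have habs : |w.re| = ‖H‖ := by
    rw [← hwn', hre, Complex.norm_real, Real.norm_eq_abs, Complex.ofReal_re]
  have h1 : eval w (p.map (algebraMap ℝ ℂ)) ∈ spectrum ℂ (aeval H (p.map (algebraMap ℝ ℂ))) := by
    rw [spectrum.map_polynomial_aeval]
    exact ⟨w, hw, rfl⟩
  have h2 := spectrum.norm_le_norm_of_mem h1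
  have e : eval w (p.map (algebraMap ℝ ℂ)) = ((p.eval w.re : ℝ) : ℂ) := by
    rw [hre, eval_map_algebraMap, Complex.ofReal_re]
    exact (aeval_algebraMap_apply_eq_algebraMap_eval (A := ℂ) w.re p)
  rw [e, Complex.norm_real, Real.norm_eq_abs] at h2
  exact (h _ habs).trans h2

end Pool.Agent.H70.SG
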