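import Pool.Agent.H70.SG.Base

set_option autoImplicit false

/-! The weights. -/

namespace Pool.Agent.H70.SG

open Filter Topology Pool.Agent.H751R3 Pool.Agent.H751R3.Dart

theorem val_of {m k a b : ℕ} (hk : k < 3 * m) (h : k + b = a ∨ k + b = a + 3 * m) :
    (((a : ℕ) : ZMod (3 * m)) - ((b : ℕ) : ZMod (3 * m))).val = k := by
  have h1 : ((a : ℕ) : ZMod (3 * m)) - ((b : ℕ) : ZMod (3 * m)) = ((k : ℕ) : ZMod (3 * m)) := by
    rw [sub_eq_iff_eq_add, ← Nat.cast_add]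
    rcases h with h | h
    · rw [h]
    · rw [h, Nat.cast_add, ZMod.natCast_self, add_zero]
  rw [h1, ZMod.val_natCast_of_lt hk]

/-- The place of a colour. -/
def pl (m : ℕ) (c : Fin 3) : Z3 m := (((c : ℕ) * m : ℕ) : ZMod (3 * m))

theorem well_val {m : ℕ} (hm : 0 < m) (c p : Fin 3) :
    (pl m c - pl m p).val = if c = p then 0 else if c = p + 1 then m else 2 * m := by
  unfold pl
  fin_cases c <;> fin_cases p <;> exact val_of (by simp; try omega) (by simp; try omega)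

theorem col_some {m : ℕ} {x : Z3 m} {c : Fin 3} (h : col m x = some c) : x = pl m c := by
  unfold col at h
  unfold pl
  split_ifs at h with h1 h2 h3
  · cases Option.some_injective _ h
    simpa using h1
  · cases Option.some_injective _ h
    simpa using h2
  · cases Option.some_injective _ h
    exact h3

theorem val_add_one {m : ℕ} (hm : 0 < m) (z : Z3 m) :
    (z.val + 1 < 3 * m ∧ (z + 1).val = z.val + 1) ∨ (z.val + 1 = 3 * m ∧ (z + 1).val = 0) := by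
  have : NeZero (3 * m) := ⟨by omega⟩
  have hlt := ZMod.val_lt z
  have h1 : (z + 1).val = (z.val + 1) % (3 * m) := by
    have h2 : z + 1 = ((z.val + 1 : ℕ) : ZMod (3 * m)) := by
      rw [Nat.cast_add, ZMod.natCast_zmod_val, Nat.cast_one]
    rw [h2, ZMod.val_natCast]
  rcases Nat.lt_or_ge (z.val + 1) (3 * m) with h | h
  · left
    exact ⟨h, by rw [h1, Nat.mod_eq_of_lt h]⟩
  · right
    have h3 : z.val + 1 = 3 * m := by omega
    exact ⟨h3, by rw [h1, h3, Nat.mod_self]⟩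

theorem val_sub_one {m : ℕ} (hm : 0 < m) (z : Z3 m) :
    (0 < z.val ∧ (z - 1).val = z.val - 1) ∨ (z.val = 0 ∧ (z - 1).val = 3 * m - 1) := by
  have h := val_add_one hm (z - 1)
  rw [sub_add_cancel] at h
  rcases h with ⟨h1, h2⟩ | ⟨h1, h2⟩
  · left
    omega
  · right
    omega

/-- The profile. -/
noncomputable def gg (m k : ℕ) : ℝ :=
  100 * (3 * m) ^ 2 - 8 * (3 * m) * ((min k (min m (3 * m - k)) : ℕ) : ℝ) + k * (3 * m - k)

theorem gg_pos {m k : ℕ} (hm : 0 < m) (hk : k ≤ 3 * m) : 0 < gg m k := by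
  unfold gg
  have h1 : ((min k (min m (3 * m - k)) : ℕ) : ℝ) ≤ m := by
    exact_mod_cast (by omega : min k (min m (3 * m - k)) ≤ m)
  have h2 : (k : ℝ) ≤ 3 * m := by exact_mod_cast hk
  have h3 : (0 : ℝ) < m := by exact_mod_cast hm
  have h4 : (0 : ℝ) ≤ k := Nat.cast_nonneg k
  have h5 : 0 ≤ (k : ℝ) * (3 * m - k) := mul_nonneg h4 (by linarith)
  nlinarith

theorem gg_le {m k : ℕ} (hm : 0 < m) (hk : k ≤ 3 * m) : gg m k ≤ 101 * (3 * m) ^ 2 := by
  unfold gg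
  have h0 : (0 : ℝ) ≤ ((min k (min m (3 * m - k)) : ℕ) : ℝ) := Nat.cast_nonneg _
  have h2 : (k : ℝ) ≤ 3 * m := by exact_mod_cast hk
  have h3 : (0 : ℝ) < m := by exact_mod_cast hm
  have h4 : (0 : ℝ) ≤ k := Nat.cast_nonneg k
  have h6 : 0 ≤ 8 * (3 * (m : ℝ)) * ((min k (min m (3 * m - k)) : ℕ) : ℝ) := by positivity
  nlinarith [mul_nonneg h4 (sub_nonneg.2 h2)]

theorem gg_end {m : ℕ} : gg m (3 * m) = gg m 0 := by
  unfold gg
  simp

theorem gg_second {m j : ℕ} (hj : j + 1 < 3 * m) :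
    gg m (j + 2) + gg m j = 2 * gg m (j + 1) - 2 + (if j + 1 = m ∨ j + 1 = 2 * m then 8 * (3 * (m : ℝ)) else 0) := by
  have hR : min (j + 2) (min m (3 * m - (j + 2))) + min j (min m (3 * m - j)) +
      (if j + 1 = m ∨ j + 1 = 2 * m then 1 else 0) = 2 * min (j + 1) (min m (3 * m - (j + 1))) := by
    split_ifs <;> omega
  have hR' := congrArg (Nat.cast : ℕ → ℝ) hR
  unfold gg
  by_cases h : j + 1 = m ∨ j + 1 = 2 * m
  · rw [if_pos h] at hR' ⊢
    simp only [Nat.cast_add, Nat.cast_mul, Nat.cast_one, Nat.cast_ofNat] at hR' ⊢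
    linear_combination (-(24 * (m : ℝ))) * hR'
  · rw [if_neg h] at hR' ⊢
    simp only [Nat.cast_add, Nat.cast_mul, Nat.cast_one, Nat.cast_ofNat, Nat.cast_zero] at hR' ⊢
    linear_combination (-(24 * (m : ℝ))) * hR'

/-- `T` -/
noncomputable def TT (m : ℕ) : ℝ := 1 + 13 / (100 * (3 * m))

/-- `κ' = 3 - δ` -/
noncomputable def KK (m : ℕ) : ℝ := 3 - 1 / (100 * (3 * m) ^ 2)

theorem TT_gt {m : ℕ} (hm : 0 < m) : 1 < TT m := by
  unfold TT
  have h3 : (0 : ℝ) < m := by exact_mod_cast hm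
  have : 0 < 13 / (100 * (3 * (m : ℝ))) := by positivity
  linarith

theorem KK_lt {m : ℕ} (hm : 0 < m) : 1 < KK m ∧ KK m < 3 := by
  unfold KK
  have h3 : (1 : ℝ) ≤ m := by exact_mod_cast hm
  have h4 : 0 < 1 / (100 * (3 * (m : ℝ)) ^ 2) := by positivity
  have h5 : 1 / (100 * (3 * (m : ℝ)) ^ 2) ≤ 1 := by
    rw [div_le_one (by positivity)]
    nlinarith
  constructor <;> linarith

/-- at the place of the parent -/
theorem ineq_zero {m : ℕ} (hm : 0 < m) : gg m 1 + gg m (3 * m - 1) + TT m * gg m 0 ≤ KK m * gg m 0 := by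
  have h3 : (1 : ℝ) ≤ m := by exact_mod_cast hm
  have h0 : gg m 0 = 100 * (3 * m) ^ 2 := by unfold gg; simp
  have h1 : gg m 1 = 100 * (3 * m) ^ 2 - 8 * (3 * m) + (3 * m - 1) := by
    unfold gg
    rw [show min 1 (min m (3 * m - 1)) = 1 by omega]
    push_cast
    ring
  have h2 : gg m (3 * m - 1) = 100 * (3 * m) ^ 2 - 8 * (3 * m) + (3 * m - 1) := by
    unfold gg
    rw [show min (3 * m - 1) (min m (3 * m - (3 * m - 1))) = 1 by omega, Nat.cast_sub (by omega)]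
    push_cast
    ring
  rw [h1, h2, h0]
  unfold TT KK
  have h4 : (m : ℝ) ≠ 0 := by positivity
  have e1 : (1 + 13 / (100 * (3 * (m : ℝ)))) * (100 * (3 * m) ^ 2) = 100 * (3 * m) ^ 2 + 13 * (3 * m) := by
    field_simp
  have e2 : (3 - 1 / (100 * (3 * (m : ℝ)) ^ 2)) * (100 * (3 * m) ^ 2) = 300 * (3 * m) ^ 2 - 1 := by
    field_simp
    ring
  rw [e1, e2]
  linarith

/-- at the places of the children -/
theorem ineq_well {m k : ℕ} (hm : 0 < m) (hk : k = m ∨ k = 2 * m) :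
    gg m (k + 1) + gg m (k - 1) + (TT m)⁻¹ * gg m k ≤ KK m * gg m k := by
  obtain ⟨j, rfl⟩ : ∃ j, k = j + 1 := ⟨k - 1, by omega⟩
  have hs := gg_second (m := m) (j := j) (by omega)
  rw [if_pos hk] at hs
  rw [Nat.add_sub_cancel, show j + 1 + 1 = j + 2 by omega]
  have h3 : (1 : ℝ) ≤ m := by exact_mod_cast hm
  have hle := gg_le (m := m) (k := j + 1) hm (by omega)
  have hge : 97 * (3 * (m : ℝ)) ^ 2 ≤ gg m (j + 1) := by
    unfold gg
    have h1 : ((min (j + 1) (min m (3 * m - (j + 1))) : ℕ) : ℝ) ≤ m := by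
      exact_mod_cast (by omega : min (j + 1) (min m (3 * m - (j + 1))) ≤ m)
    have h2 : ((j + 1 : ℕ) : ℝ) ≤ 3 * m := by exact_mod_cast (by omega : j + 1 ≤ 3 * m)
    have h4 : (0 : ℝ) ≤ ((j + 1 : ℕ) : ℝ) := Nat.cast_nonneg _
    have h5 : 0 ≤ ((j + 1 : ℕ) : ℝ) * (3 * m - ((j + 1 : ℕ) : ℝ)) := mul_nonneg h4 (by linarith)
    nlinarith
  have hN : (3 : ℝ) ≤ 3 * m := by linarith
  have hd : 1 / (100 * (3 * (m : ℝ)) ^ 2) * gg m (j + 1) ≤ 101 / 100 := by
    rw [div_mul_eq_mul_div, one_mul, div_le_iff₀ (by positivity)]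
    nlinarith
  have ht : (TT m)⁻¹ * gg m (j + 1) ≤ gg m (j + 1) - 10 * (3 * m) := by
    have hT : (TT m)⁻¹ = 1 - 13 / (100 * (3 * m) + 13) := by
      unfold TT
      have : (m : ℝ) ≠ 0 := by positivity
      field_simp
      ring
    rw [hT]
    have h6 : 10 * (3 * (m : ℝ)) ≤ 13 / (100 * (3 * m) + 13) * gg m (j + 1) := by
      rw [div_mul_eq_mul_div, le_div_iff₀ (by positivity)]
      nlinarith
    linarith
  unfold KK
  have e : (3 - 1 / (100 * (3 * (m : ℝ)) ^ 2)) * gg m (j + 1) =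
      3 * gg m (j + 1) - 1 / (100 * (3 * (m : ℝ)) ^ 2) * gg m (j + 1) := by ring
  rw [e]
  linarith

/-- at the other places -/
theorem ineq_else {m k : ℕ} (hm : 0 < m) (hk0 : 0 < k) (hk1 : k < 3 * m) (hk : ¬ (k = m ∨ k = 2 * m)) :
    gg m (k + 1) + gg m (k - 1) + gg m k ≤ KK m * gg m k := by
  obtain ⟨j, rfl⟩ : ∃ j, k = j + 1 := ⟨k - 1, by omega⟩
  have hs := gg_second (m := m) (j := j) (by omega)
  rw [if_neg hk] at hs
  rw [Nat.add_sub_cancel, show j + 1 + 1 = j + 2 by omega]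
  have h3 : (1 : ℝ) ≤ m := by exact_mod_cast hm
  have hle := gg_le (m := m) (k := j + 1) hm (by omega)
  have hd : 1 / (100 * (3 * (m : ℝ)) ^ 2) * gg m (j + 1) ≤ 101 / 100 := by
    rw [div_mul_eq_mul_div, one_mul, div_le_iff₀ (by positivity)]
    nlinarith
  unfold KK
  have e : (3 - 1 / (100 * (3 * (m : ℝ)) ^ 2)) * gg m (j + 1) =
      3 * gg m (j + 1) - 1 / (100 * (3 * (m : ℝ)) ^ 2) * gg m (j + 1) := by ring
  rw [e]
  linarith

end Pool.Agent.H70.SG
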